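import Pool.Agent.X249.NF.Defs

/-!
# Nest-free matchings and sorted lists
-/

set_option autoImplicit false

namespace Pool.Agent.X249.NF

theorem pairwise_zip {A B : List ℕ} (hA : A.Pairwise (· < ·)) (hB : B.Pairwise (· < ·)) :
    (A.zip B).Pairwise (fun e f => e.1 < f.1 ∧ e.2 < f.2) := by
  rw [List.pairwise_iff_getElem] at hA hB ⊢
  intro i j hi hj hij
  rw [List.length_zip] at hi hj
  rw [List.getElem_zip, List.getElem_zip]
  exact ⟨hA i j (by omega) (by omega) hij, hB i j (by omega) (by omega) hij⟩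

theorem pairwise_or {α : Type} {R : α → α → Prop} {l : List α} (h : l.Pairwise R) {x y : α}
    (hx : x ∈ l) (hy : y ∈ l) (hne : x ≠ y) : R x y ∨ R y x := by
  obtain ⟨i, hi, rfl⟩ := List.getElem_of_mem hx
  obtain ⟨j, hj, rfl⟩ := List.getElem_of_mem hy
  rw [List.pairwise_iff_getElem] at h
  rcases Nat.lt_trichotomy i j with h1 | h1 | h1
  · exact Or.inl (h i j hi hj h1)
  · subst h1; exact absurd rfl hne
  · exact Or.inr (h j i hj hi h1)

/-- From two sorted lists of ends to a matching. -/
theorem exists_matching {E : List (ℕ × ℕ)} {A B : List ℕ} (hA : A.Pairwise (· < ·))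
    (hB : B.Pairwise (· < ·)) (hAB : ∀ p ∈ A, p ∉ B)
    (h : List.Forall₂ (fun p q => (p, q) ∈ E) A B) :
    ∃ M : Finset (ℕ × ℕ), (∀ e ∈ M, e ∈ E) ∧ (∀ e ∈ M, ∀ f ∈ M, e ≠ f → CompE e f) ∧
      M.card = A.length ∧ M.card = B.length := by
  have hlen := h.length_eq
  have hz : ∀ e ∈ A.zip B, e ∈ E := by
    intro e he
    exact (List.forall₂_iff_zip.1 h).2 (by simpa using he)
  have hpw := pairwise_zip hA hB
  have hnd : (A.zip B).Nodup := hpw.imp (fun {a b} h hab => by
    rw [hab] at h
    exact absurd h.1 (lt_irrefl _))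
  refine ⟨(A.zip B).toFinset, ?_, ?_, ?_, ?_⟩
  · intro e he
    exact hz e (List.mem_toFinset.1 he)
  · intro e he f hf hne
    rw [List.mem_toFinset] at he hf
    have h1 := List.of_mem_zip (a := e.1) (b := e.2) he
    have h2 := List.of_mem_zip (a := f.1) (b := f.2) hf
    refine ⟨pairwise_or hpw he hf hne, ?_, ?_⟩
    · intro h
      exact hAB _ h1.1 (h ▸ h2.2)
    · intro h
      exact hAB _ h2.1 (h ▸ h1.2)
  · rw [List.toFinset_card_of_nodup hnd, List.length_zip, hlen, Nat.min_self]
  · rw [List.toFinset_card_of_nodup hnd, List.length_zip, hlen, Nat.min_self]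

/-- The left ends and the right ends of a matching. -/
def lefts (M : Finset (ℕ × ℕ)) : Finset ℕ := M.image Prod.fst
def rights (M : Finset (ℕ × ℕ)) : Finset ℕ := M.image Prod.snd

theorem mem_lefts {M : Finset (ℕ × ℕ)} {p : ℕ} : p ∈ lefts M ↔ ∃ q, (p, q) ∈ M := by
  simp [lefts]

theorem mem_rights {M : Finset (ℕ × ℕ)} {q : ℕ} : q ∈ rights M ↔ ∃ p, (p, q) ∈ M := by
  simp [rights]

/-- The ends of a matching in two sorted lists which correspond to each other are matched in
order. -/
theorem local_match {M : Finset (ℕ × ℕ)} (hM : ∀ e ∈ M, ∀ f ∈ M, e ≠ f → CompE e f)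
    {X Y : List ℕ} (hX : X.Pairwise (· < ·)) (hY : Y.Pairwise (· < ·))
    (hXY : ∀ e ∈ M, e.1 ∈ X → e.2 ∈ Y) (hYX : ∀ e ∈ M, e.2 ∈ Y → e.1 ∈ X) :
    List.Forall₂ (fun p q => (p, q) ∈ M) (X.filter (fun p => decide (p ∈ lefts M)))
      (Y.filter (fun q => decide (q ∈ rights M))) := by
  classical
  obtain ⟨φ, hφ⟩ : ∃ φ : ℕ → ℕ, ∀ p ∈ lefts M, (p, φ p) ∈ M := by
    choose! φ hφ using fun (p : ℕ) (hp : p ∈ lefts M) => mem_lefts.1 hp
    exact ⟨φ, hφ⟩
  have hB : Y.filter (fun q => decide (q ∈ rights M)) =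
      (X.filter (fun p => decide (p ∈ lefts M))).map φ := by
    refine List.Pairwise.eq_of_mem_iff (r := (· < ·)) (hY.filter _) ?_ ?_
    · rw [List.pairwise_map]
      refine List.Pairwise.imp_of_mem ?_ (hX.filter _)
      intro a b ha hb hab
      have ha' := hφ a (by simpa using (List.mem_filter.1 ha).2)
      have hb' := hφ b (by simpa using (List.mem_filter.1 hb).2)
      have h1 := hM _ ha' _ hb' (fun h => by
        have := congrArg Prod.fst h
        simp only at this
        omega)
      rcases h1.1 with h2 | h2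
      · exact h2.2
      · exact absurd h2.1 (by simp only; omega)
    · intro q
      simp only [List.mem_filter, List.mem_map, decide_eq_true_eq]
      constructor
      · rintro ⟨hq, hq'⟩
        obtain ⟨p, hp⟩ := mem_rights.1 hq'
        have hpl : p ∈ lefts M := mem_lefts.2 ⟨q, hp⟩
        refine ⟨p, ⟨hYX _ hp hq, hpl⟩, ?_⟩
        by_contra hne
        have h1 := hM _ (hφ p hpl) _ hp (fun h => hne (congrArg Prod.snd h))
        rcases h1.1 with h2 | h2
        · exact absurd h2.1 (lt_irrefl _)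
        · exact absurd h2.1 (lt_irrefl _)
      · rintro ⟨p, ⟨hpX, hpl⟩, rfl⟩
        have h1 := hφ p hpl
        exact ⟨hXY _ h1 hpX, mem_rights.2 ⟨p, h1⟩⟩
  rw [hB, List.forall₂_map_right_iff, List.forall₂_same]
  intro p hp
  exact hφ p (by simpa using (List.mem_filter.1 hp).2)

/-- A matching with many edges covers all vertices; no vertex is both a left and a right end. -/
theorem covers {M : Finset (ℕ × ℕ)} (hM : ∀ e ∈ M, ∀ f ∈ M, e ≠ f → CompE e f)
    (hlt : ∀ e ∈ M, e.1 < e.2) {V : List ℕ} (hV : ∀ e ∈ M, e.1 ∈ V ∧ e.2 ∈ V)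
    (hk : V.length ≤ 2 * M.card) : (∀ p ∈ V, (p ∈ rights M ↔ p ∉ lefts M)) := by
  have hd : Disjoint (lefts M) (rights M) := by
    rw [Finset.disjoint_left]
    intro p hp hq
    obtain ⟨q, hq'⟩ := mem_lefts.1 hp
    obtain ⟨r, hr⟩ := mem_rights.1 hq
    have hne : ((p, q) : ℕ × ℕ) ≠ (r, p) := by
      intro h
      have h1 := congrArg Prod.fst h
      simp only at h1
      have h2 := hlt _ hr
      simp only at h2
      omega
    exact (hM _ hq' _ hr hne).2.1 rfl
  have hl : (lefts M).card = M.card := by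
    rw [lefts, Finset.card_image_of_injOn]
    intro e he f hf hef
    by_contra hne
    rcases (hM e he f hf hne).1 with h2 | h2
    · exact absurd h2.1 (by omega)
    · exact absurd h2.1 (by omega)
  have hr : (rights M).card = M.card := by
    rw [rights, Finset.card_image_of_injOn]
    intro e he f hf hef
    by_contra hne
    rcases (hM e he f hf hne).1 with h2 | h2
    · exact absurd h2.2 (by omega)
    · exact absurd h2.2 (by omega)
  have hu : lefts M ∪ rights M ⊆ V.toFinset := by
    intro p hp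
    rw [List.mem_toFinset]
    rcases Finset.mem_union.1 hp with h1 | h1
    · obtain ⟨q, hq⟩ := mem_lefts.1 h1
      exact (hV _ hq).1
    · obtain ⟨q, hq⟩ := mem_rights.1 h1
      exact (hV _ hq).2
  have heq : lefts M ∪ rights M = V.toFinset := by
    apply Finset.eq_of_subset_of_card_le hu
    rw [Finset.card_union_of_disjoint hd, hl, hr]
    exact (List.toFinset_card_le V).trans (by omega)
  intro p hp
  constructor
  · intro h1 h2
    exact Finset.disjoint_left.1 hd h2 h1
  · intro h1
    have : p ∈ lefts M ∪ rights M := by rw [heq]; exact List.mem_toFinset.2 hp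
    exact (Finset.mem_union.1 this).resolve_left h1

end Pool.Agent.X249.NF
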