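import Pool.Agent.X249.NF.Geo

/-!
# Completeness of the tape graph: from a run to a matching
-/

set_option autoImplicit false

namespace Pool.Agent.X249.NF

theorem forall₂_flatMap {α β γ : Type} {R : β → γ → Prop} {l : List α} {f : α → List β}
    {g : α → List γ} (h : ∀ x ∈ l, List.Forall₂ R (f x) (g x)) :
    List.Forall₂ R (l.flatMap f) (l.flatMap g) := by
  induction l with
  | nil => simp
  | cons a l ih =>
    rw [List.flatMap_cons, List.flatMap_cons]
    exact List.rel_append (h a (by simp)) (ih (fun x hx => h x (by simp [hx])))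

/-- The labels: `true` for the left ends. -/
def lab (m n : ℕ) (c : ℕ → ℕ → Bool) (l s o : ℕ) : Bool :=
  if l = 0 then true
  else if l = 3 * (m * n) + 2 then false
  else if (l - 1) % 3 = 0 ∨ s ≠ opA m n ((l - 1) / 3) then
    decide (o = (c ((l - 1) / 3) s).toNat)
  else if (l - 1) % 3 = 1 then
    gb (w1 (c ((l - 1) / 3 + 1) (s + 1)) (c ((l - 1) / 3) (s + 1))) o
  else gb (w2 (c ((l - 1) / 3 + 1) (s + 1)) (c ((l - 1) / 3) (s + 1))) o

/-- The offsets of the left ends, and of the right ends. -/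
def Lf (m n : ℕ) (c : ℕ → ℕ → Bool) (l s : ℕ) : List ℕ :=
  (List.range 5).filter (fun o => val m n l s o && lab m n c l s o)
def Rt (m n : ℕ) (c : ℕ → ℕ → Bool) (l s : ℕ) : List ℕ :=
  (List.range 5).filter (fun o => val m n l s o && !lab m n c l s o)

section values

variable {m n : ℕ} (c : ℕ → ℕ → Bool)

theorem Lf_zero (s : ℕ) : Lf m n c 0 s = [0] := by
  have h : ∀ o, (val m n 0 s o && lab m n c 0 s o) = decide (o = 0) := by
    intro o
    rw [val_zero, lab, if_pos rfl, Bool.and_true]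
  unfold Lf
  simp only [h]
  rfl

theorem Rt_zero (s : ℕ) : Rt m n c 0 s = [] := by
  have h : ∀ o, (val m n 0 s o && !lab m n c 0 s o) = false := by
    intro o
    rw [lab, if_pos rfl, Bool.not_true, Bool.and_false]
  unfold Rt
  simp only [h]
  rfl

theorem Lf_last (s : ℕ) : Lf m n c (3 * (m * n) + 2) s = [] := by
  have h : ∀ o, (val m n (3 * (m * n) + 2) s o && lab m n c (3 * (m * n) + 2) s o) = false := by
    intro o
    rw [lab, if_neg (by omega), if_pos rfl, Bool.and_false]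
  unfold Lf
  simp only [h]
  rfl

theorem Rt_last (s : ℕ) : Rt m n c (3 * (m * n) + 2) s = [0] := by
  have h : ∀ o, (val m n (3 * (m * n) + 2) s o && !lab m n c (3 * (m * n) + 2) s o) =
      decide (o = 0) := by
    intro o
    rw [val_last, lab, if_neg (by omega), if_pos rfl, Bool.not_false, Bool.and_true]
  unfold Rt
  simp only [h]
  rfl

theorem two_left (b : Bool) :
    (List.range 5).filter (fun o => decide (o < 2) && decide (o = b.toNat)) = [b.toNat] := by
  cases b <;> rfl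

theorem two_right (b : Bool) :
    (List.range 5).filter (fun o => decide (o < 2) && !decide (o = b.toNat)) = [(!b).toNat] := by
  cases b <;> rfl

theorem lab_can (τ s o : ℕ) : lab m n c (3 * τ + 1) s o = decide (o = (c τ s).toNat) := by
  have h1 : (3 * τ + 1 - 1) / 3 = τ := by omega
  rw [lab, if_neg (by omega), if_neg (by omega), if_pos (Or.inl (by omega)), h1]

theorem Lf_can (τ s : ℕ) : Lf m n c (3 * τ + 1) s = [(c τ s).toNat] := by
  unfold Lf
  simp only [val_can', lab_can]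
  exact two_left _

theorem Rt_can (τ s : ℕ) : Rt m n c (3 * τ + 1) s = [(!c τ s).toNat] := by
  unfold Rt
  simp only [val_can', lab_can]
  exact two_right _

variable {τ u : ℕ} (hτ : τ < m * n) (hu : u = 1 ∨ u = 2)

include hτ hu

theorem lab_mid {s : ℕ} (hs : s ≠ opA m n τ) (o : ℕ) :
    lab m n c (3 * τ + 1 + u) s o = decide (o = (c τ s).toNat) := by
  have h1 : (3 * τ + 1 + u - 1) / 3 = τ := by omega
  rw [lab, if_neg (by omega), if_neg (by omega), h1, if_pos (Or.inr hs)]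

theorem Lf_mid {s : ℕ} (hs : s ≠ opA m n τ) (hs' : s ≠ opA m n τ + 1) :
    Lf m n c (3 * τ + 1 + u) s = [(c τ s).toNat] := by
  unfold Lf
  simp only [val_mid hτ hu, lab_mid c hτ hu hs, if_neg hs, if_neg hs']
  exact two_left _

theorem Rt_mid {s : ℕ} (hs : s ≠ opA m n τ) (hs' : s ≠ opA m n τ + 1) :
    Rt m n c (3 * τ + 1 + u) s = [(!c τ s).toNat] := by
  unfold Rt
  simp only [val_mid hτ hu, lab_mid c hτ hu hs, if_neg hs, if_neg hs']
  exact two_right _

theorem Lf_empty : Lf m n c (3 * τ + 1 + u) (opA m n τ + 1) = [] := by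
  unfold Lf
  simp only [val_mid hτ hu, if_neg (by omega : ¬ opA m n τ + 1 = opA m n τ), if_true,
    Bool.false_and]
  rfl

theorem Rt_empty : Rt m n c (3 * τ + 1 + u) (opA m n τ + 1) = [] := by
  unfold Rt
  simp only [val_mid hτ hu, if_neg (by omega : ¬ opA m n τ + 1 = opA m n τ), if_true,
    Bool.false_and]
  rfl

omit hu

theorem lab_one (o : ℕ) : lab m n c (3 * τ + 1 + 1) (opA m n τ) o =
    gb (w1 (c (τ + 1) (opA m n τ + 1)) (c τ (opA m n τ + 1))) o := by
  have h1 : (3 * τ + 1 + 1 - 1) / 3 = τ := by omega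
  rw [lab, if_neg (by omega), if_neg (by omega), h1, if_neg (by omega), if_pos (by omega)]

theorem lab_two (o : ℕ) : lab m n c (3 * τ + 1 + 2) (opA m n τ) o =
    gb (w2 (c (τ + 1) (opA m n τ + 1)) (c τ (opA m n τ + 1))) o := by
  have h1 : (3 * τ + 1 + 2 - 1) / 3 = τ := by omega
  rw [lab, if_neg (by omega), if_neg (by omega), h1, if_neg (by omega), if_neg (by omega)]

theorem Lf_one : Lf m n c (3 * τ + 1 + 1) (opA m n τ) =
    (List.range 5).filter (gb (w1 (c (τ + 1) (opA m n τ + 1)) (c τ (opA m n τ + 1)))) := by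
  unfold Lf
  simp only [val_mid hτ (Or.inl rfl), if_true, Bool.true_and, lab_one c hτ]

theorem Rt_one : Rt m n c (3 * τ + 1 + 1) (opA m n τ) =
    (List.range 5).filter
      (fun j => !gb (w1 (c (τ + 1) (opA m n τ + 1)) (c τ (opA m n τ + 1))) j) := by
  unfold Rt
  simp only [val_mid hτ (Or.inl rfl), if_true, Bool.true_and, lab_one c hτ]

theorem Lf_two : Lf m n c (3 * τ + 1 + 2) (opA m n τ) =
    (List.range 5).filter (gb (w2 (c (τ + 1) (opA m n τ + 1)) (c τ (opA m n τ + 1)))) := by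
  unfold Lf
  simp only [val_mid hτ (Or.inr rfl), if_true, Bool.true_and, lab_two c hτ]

theorem Rt_two : Rt m n c (3 * τ + 1 + 2) (opA m n τ) =
    (List.range 5).filter
      (fun j => !gb (w2 (c (τ + 1) (opA m n τ + 1)) (c τ (opA m n τ + 1))) j) := by
  unfold Rt
  simp only [val_mid hτ (Or.inr rfl), if_true, Bool.true_and, lab_two c hτ]

end values

/-! ### Lists of vertices by layers -/

/-- The vertices of a layer with given offsets. -/
def lay (N : ℕ) (F : ℕ → List ℕ) (l : ℕ) : List ℕ :=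
  (List.range N).flatMap (fun s => (F s).map (pst N l s))

theorem mem_lay {N l p : ℕ} {F : ℕ → List ℕ} :
    p ∈ lay N F l ↔ ∃ s, s < N ∧ ∃ o ∈ F s, p = pst N l s o := by
  simp only [lay, List.mem_flatMap, List.mem_range, List.mem_map]
  constructor
  · rintro ⟨s, hs, o, ho, rfl⟩
    exact ⟨s, hs, o, ho, rfl⟩
  · rintro ⟨s, hs, o, ho, rfl⟩
    exact ⟨s, hs, o, ho, rfl⟩

theorem lay_sorted {N l : ℕ} {F : ℕ → List ℕ} (h1 : ∀ s, (F s).Pairwise (· < ·))
    (h2 : ∀ s, ∀ o ∈ F s, o < 5) : (lay N F l).Pairwise (· < ·) := by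
  rw [lay, List.pairwise_flatMap]
  refine ⟨fun s _ => ?_, ?_⟩
  · rw [List.pairwise_map]
    exact (h1 s).imp (fun h => pst_lt h)
  · refine List.pairwise_lt_range.imp ?_
    intro s s' hs p hp q hq
    obtain ⟨o, ho, rfl⟩ := List.mem_map.1 hp
    obtain ⟨o', ho', rfl⟩ := List.mem_map.1 hq
    exact pst_lt_slot hs (h2 s o ho)

theorem lays_sorted {N T d : ℕ} {F : ℕ → ℕ → List ℕ} (h1 : ∀ l s, (F l s).Pairwise (· < ·))
    (h2 : ∀ l s, ∀ o ∈ F l s, o < 5) :
    ((List.range T).flatMap (fun l => lay N (F (l + d)) (l + d))).Pairwise (· < ·) := by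
  rw [List.pairwise_flatMap]
  refine ⟨fun l _ => lay_sorted (h1 _) (h2 _), ?_⟩
  refine List.pairwise_lt_range.imp ?_
  intro l l' hl p hp q hq
  obtain ⟨s, hs, o, ho, rfl⟩ := mem_lay.1 hp
  obtain ⟨s', hs', o', ho', rfl⟩ := mem_lay.1 hq
  exact pst_lt_layer (by omega) hs (h2 _ _ _ ho)

theorem lay_split {N a : ℕ} (ha : a + 1 < N) (F : ℕ → List ℕ) (l : ℕ) :
    lay N F l = ((List.range a).flatMap (fun s => (F s).map (pst N l s))) ++
      (((F a).map (pst N l a) ++ (F (a + 1)).map (pst N l (a + 1))) ++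
       (List.range (N - (a + 2))).flatMap
        (fun s => (F (a + 2 + s)).map (pst N l (a + 2 + s)))) := by
  have h : List.range N = List.range a ++ ([a, a + 1] ++
      (List.range (N - (a + 2))).map (a + 2 + ·)) := by
    have hN : N = a + 2 + (N - (a + 2)) := by omega
    conv_lhs => rw [hN]
    rw [List.range_add, List.range_succ, List.range_succ]
    simp
  rw [lay, h, List.flatMap_append, List.flatMap_append, List.flatMap_map]
  simp

theorem Lf_sorted {m n : ℕ} (c : ℕ → ℕ → Bool) (l s : ℕ) :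
    (Lf m n c l s).Pairwise (· < ·) := List.pairwise_lt_range.filter _

theorem Rt_sorted {m n : ℕ} (c : ℕ → ℕ → Bool) (l s : ℕ) :
    (Rt m n c l s).Pairwise (· < ·) := List.pairwise_lt_range.filter _

theorem mem_Lf {m n : ℕ} {c : ℕ → ℕ → Bool} {l s o : ℕ} : o ∈ Lf m n c l s ↔
    o < 5 ∧ val m n l s o = true ∧ lab m n c l s o = true := by
  simp [Lf]

theorem mem_Rt {m n : ℕ} {c : ℕ → ℕ → Bool} {l s o : ℕ} : o ∈ Rt m n c l s ↔
    o < 5 ∧ val m n l s o = true ∧ lab m n c l s o = false := by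
  simp [Rt]

/-! ### Matching consecutive layers -/

theorem loc_map {e : List (ℕ × ℕ)} {a b : ℕ} {F G : ℕ → Bool} {R : ℕ → ℕ → Prop} {p q : ℕ → ℕ}
    (h : Loc e a b F G)
    (hR : ∀ i < a, ∀ j < b, F i = true → G j = false → (i, j) ∈ e → R (p i) (q j)) :
    List.Forall₂ R (((List.range a).filter F).map p)
      (((List.range b).filter (fun j => !G j)).map q) := by
  rw [List.forall₂_map_left_iff, List.forall₂_map_right_iff]
  unfold Loc at h
  rw [List.forall₂_iff_zip] at h ⊢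
  refine ⟨h.1, fun {i j} hij => ?_⟩
  have h1 := List.of_mem_zip hij
  rw [List.mem_filter, List.mem_filter, List.mem_range, List.mem_range] at h1
  exact hR i h1.1.1 j h1.2.1 h1.1.2 (by simpa using h1.2.2) (h.2 hij)

section pass

variable {m n : ℕ} {pos neg : ℕ → Bool} {c : ℕ → ℕ → Bool}

theorem edge_of {l s o s' o' : ℕ} (hl : l < 3 * (m * n) + 2) (hs : s < m + n) (hs' : s' < m + n)
    (h1 : o ∈ Lf m n c l s) (h2 : o' ∈ Rt m n c (l + 1) s')
    (h : edg m n pos neg l s o s' o' = true) :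
    (pst (m + n) l s o, pst (m + n) (l + 1) s' o') ∈ edges m n pos neg :=
  (mem_edges (by omega) hs (mem_Lf.1 h1).1 (by omega) hs' (mem_Rt.1 h2).1).2
    ⟨⟨(mem_Lf.1 h1).2.1, (mem_Rt.1 h2).2.1⟩, rfl, h⟩

theorem slot_single {l s o s' o' : ℕ} (hl : l < 3 * (m * n) + 2) (hs : s < m + n)
    (hs' : s' < m + n) (h1 : Lf m n c l s = [o]) (h2 : Rt m n c (l + 1) s' = [o'])
    (h : edg m n pos neg l s o s' o' = true) :
    List.Forall₂ (fun p q => (p, q) ∈ edges m n pos neg) ((Lf m n c l s).map (pst (m + n) l s))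
      ((Rt m n c (l + 1) s').map (pst (m + n) (l + 1) s')) := by
  have h3 := edge_of hl hs hs' (by rw [h1]; simp) (by rw [h2]; simp) h
  rw [h1, h2]
  exact List.Forall₂.cons h3 List.Forall₂.nil

theorem slot_copy {τ u s : ℕ} (hτ : τ < m * n) (hu : u < 3) (hs : s < m + n)
    (hs1 : s ≠ opA m n τ) (hs2 : s ≠ opA m n τ + 1) (hc : c (τ + 1) s = c τ s) :
    List.Forall₂ (fun p q => (p, q) ∈ edges m n pos neg)
      ((Lf m n c (3 * τ + 1 + u) s).map (pst (m + n) (3 * τ + 1 + u) s))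
      ((Rt m n c (3 * τ + 1 + u + 1) s).map (pst (m + n) (3 * τ + 1 + u + 1) s)) := by
  have hL : Lf m n c (3 * τ + 1 + u) s = [(c τ s).toNat] := by
    rcases (by omega : u = 0 ∨ (u = 1 ∨ u = 2)) with rfl | h
    · exact Lf_can c τ s
    · exact Lf_mid c hτ h hs1 hs2
  have hR : Rt m n c (3 * τ + 1 + u + 1) s = [(!c τ s).toNat] := by
    rcases (by omega : u = 0 ∨ u = 1 ∨ u = 2) with rfl | rfl | rfl
    · exact Rt_mid c hτ (Or.inl rfl) hs1 hs2
    · exact Rt_mid c hτ (Or.inr rfl) hs1 hs2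
    · rw [← hc]
      exact Rt_can c (τ + 1) s
  refine slot_single (by omega) hs hs hL hR ?_
  rw [edg_copy hτ hu pos neg hs1 hs2]
  refine ⟨rfl, ?_⟩
  cases c τ s
  · exact Or.inl ⟨rfl, rfl⟩
  · exact Or.inr ⟨rfl, rfl⟩

/-- The position of a vertex in a pair of cells. -/
def pcf (N l a i : ℕ) : ℕ := if i < 2 then pst N l a i else pst N l (a + 1) (i - 2)

theorem four_left (s x : Bool) (N l a : ℕ) :
    ([s.toNat].map (pst N l a) ++ [x.toNat].map (pst N l (a + 1))) =
      ((List.range 4).filter (gb [!s, s, !x, x])).map (pcf N l a) := by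
  cases s <;> cases x <;> rfl

theorem four_right (s x : Bool) (N l a : ℕ) :
    ([(!s).toNat].map (pst N l a) ++ [(!x).toNat].map (pst N l (a + 1))) =
      ((List.range 4).filter (fun j => !gb [!s, s, !x, x] j)).map (pcf N l a) := by
  cases s <;> cases x <;> rfl

theorem four_left_mem (s x : Bool) : ∀ i < 4, gb [!s, s, !x, x] i = true →
    (i < 2 ∧ i = s.toNat) ∨ (2 ≤ i ∧ i = x.toNat + 2) := by
  cases s <;> cases x <;> decide

theorem four_right_mem (s x : Bool) : ∀ i < 4, gb [!s, s, !x, x] i = false →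
    (i < 2 ∧ i = (!s).toNat) ∨ (2 ≤ i ∧ i = (!x).toNat + 2) := by
  cases s <;> cases x <;> decide

theorem gadget_zero {τ : ℕ} (hτ : τ < m * n)
    (ht : c (τ + 1) (opA m n τ + 1) = (c τ (opA m n τ) || (pos τ && c τ (opA m n τ + 1)) ||
        (neg τ && !c τ (opA m n τ + 1)))) :
    List.Forall₂ (fun p q => (p, q) ∈ edges m n pos neg)
      ((Lf m n c (3 * τ + 1) (opA m n τ)).map (pst (m + n) (3 * τ + 1) (opA m n τ)) ++
        (Lf m n c (3 * τ + 1) (opA m n τ + 1)).map (pst (m + n) (3 * τ + 1) (opA m n τ + 1)))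
      ((Rt m n c (3 * τ + 1 + 1) (opA m n τ)).map (pst (m + n) (3 * τ + 1 + 1) (opA m n τ)) ++
        (Rt m n c (3 * τ + 1 + 1) (opA m n τ + 1)).map
          (pst (m + n) (3 * τ + 1 + 1) (opA m n τ + 1))) := by
  have ha := opA_lt hτ
  have hLa := Lf_can (m := m) (n := n) c τ (opA m n τ)
  have hLa1 := Lf_can (m := m) (n := n) c τ (opA m n τ + 1)
  have hRa := Rt_one c hτ
  rw [hLa, hLa1, Rt_empty c hτ (Or.inl rfl), List.map_nil, List.append_nil, four_left, hRa]
  have hloc := pass0_complete (pos τ) (neg τ) (c τ (opA m n τ)) (c τ (opA m n τ + 1))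
  rw [← ht] at hloc
  refine loc_map hloc ?_
  intro i hi j hj h1 h2 h3
  have hj' : j ∈ Rt m n c (3 * τ + 1 + 1) (opA m n τ) := by
    rw [hRa, List.mem_filter, List.mem_range, h2]
    exact ⟨hj, rfl⟩
  rcases four_left_mem _ _ i hi h1 with ⟨h4, h5⟩ | ⟨h4, h5⟩
  · rw [pcf, if_pos h4]
    refine edge_of (by omega) (by omega) (by omega) (by rw [hLa, ← h5]; simp) hj' ?_
    rw [edg_zeroPass hτ pos neg (Or.inl rfl), idx, if_pos rfl]
    exact ⟨Or.inl rfl, h3⟩
  · rw [pcf, if_neg (by omega)]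
    have h6 : i - 2 = (c τ (opA m n τ + 1)).toNat := by omega
    refine edge_of (by omega) (by omega) (by omega) (by rw [hLa1, ← h6]; simp) hj' ?_
    rw [edg_zeroPass hτ pos neg (Or.inr rfl), idx, if_neg (by omega), Nat.sub_add_cancel h4]
    exact ⟨Or.inl rfl, h3⟩

theorem gadget_one {τ : ℕ} (hτ : τ < m * n) :
    List.Forall₂ (fun p q => (p, q) ∈ edges m n pos neg)
      ((Lf m n c (3 * τ + 1 + 1) (opA m n τ)).map (pst (m + n) (3 * τ + 1 + 1) (opA m n τ)) ++
        (Lf m n c (3 * τ + 1 + 1) (opA m n τ + 1)).map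
          (pst (m + n) (3 * τ + 1 + 1) (opA m n τ + 1)))
      ((Rt m n c (3 * τ + 1 + 1 + 1) (opA m n τ)).map
          (pst (m + n) (3 * τ + 1 + 1 + 1) (opA m n τ)) ++
        (Rt m n c (3 * τ + 1 + 1 + 1) (opA m n τ + 1)).map
          (pst (m + n) (3 * τ + 1 + 1 + 1) (opA m n τ + 1))) := by
  have ha := opA_lt hτ
  have hLa := Lf_one c hτ
  have hRa : Rt m n c (3 * τ + 1 + 1 + 1) (opA m n τ) = _ := Rt_two c hτ
  have hRe : Rt m n c (3 * τ + 1 + 1 + 1) (opA m n τ + 1) = [] := Rt_empty c hτ (Or.inr rfl)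
  rw [Lf_empty c hτ (Or.inl rfl), hRe, List.map_nil, List.append_nil, List.map_nil,
    List.append_nil, hLa, hRa]
  refine loc_map (pass1_complete _ _) ?_
  intro i hi j hj h1 h2 h3
  refine edge_of (c := c) (by omega) (by omega) (by omega) ?_ ?_ ?_
  · rw [hLa, List.mem_filter, List.mem_range]
    exact ⟨hi, h1⟩
  · rw [hRa, List.mem_filter, List.mem_range, h2]
    exact ⟨hj, rfl⟩
  · rw [edg_onePass hτ pos neg (Or.inl rfl)]
    exact ⟨Or.inl rfl, h3⟩

theorem gadget_two {τ : ℕ} (hτ : τ < m * n) (hx : c (τ + 1) (opA m n τ) = c τ (opA m n τ + 1)) :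
    List.Forall₂ (fun p q => (p, q) ∈ edges m n pos neg)
      ((Lf m n c (3 * τ + 1 + 2) (opA m n τ)).map (pst (m + n) (3 * τ + 1 + 2) (opA m n τ)) ++
        (Lf m n c (3 * τ + 1 + 2) (opA m n τ + 1)).map
          (pst (m + n) (3 * τ + 1 + 2) (opA m n τ + 1)))
      ((Rt m n c (3 * τ + 1 + 2 + 1) (opA m n τ)).map
          (pst (m + n) (3 * τ + 1 + 2 + 1) (opA m n τ)) ++
        (Rt m n c (3 * τ + 1 + 2 + 1) (opA m n τ + 1)).map
          (pst (m + n) (3 * τ + 1 + 2 + 1) (opA m n τ + 1))) := by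
  have ha := opA_lt hτ
  have hLa := Lf_two c hτ
  have hRa : Rt m n c (3 * τ + 1 + 2 + 1) (opA m n τ) = _ :=
    Rt_can (m := m) (n := n) c (τ + 1) (opA m n τ)
  have hRa1 : Rt m n c (3 * τ + 1 + 2 + 1) (opA m n τ + 1) = _ :=
    Rt_can (m := m) (n := n) c (τ + 1) (opA m n τ + 1)
  rw [Lf_empty c hτ (Or.inr rfl), List.map_nil, List.append_nil, hLa, hRa, hRa1, four_right, hx]
  rw [hx] at hRa
  refine loc_map (pass2_complete _ _) ?_
  intro i hi j hj h1 h2 h3
  have hi' : i ∈ Lf m n c (3 * τ + 1 + 2) (opA m n τ) := by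
    rw [hLa, List.mem_filter, List.mem_range]
    exact ⟨hi, h1⟩
  rcases four_right_mem _ _ j hj h2 with ⟨h4, h5⟩ | ⟨h4, h5⟩
  · rw [pcf, if_pos h4]
    refine edge_of (by omega) (by omega) (by omega) hi' (by rw [hRa, ← h5]; simp) ?_
    rw [edg_twoPass hτ pos neg (Or.inl rfl), idx, if_pos rfl]
    exact ⟨Or.inl rfl, h3⟩
  · rw [pcf, if_neg (by omega)]
    have h6 : j - 2 = (!c (τ + 1) (opA m n τ + 1)).toNat := by omega
    refine edge_of (by omega) (by omega) (by omega) hi' (by rw [hRa1, ← h6]; simp) ?_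
    rw [edg_twoPass hτ pos neg (Or.inl rfl), idx, if_neg (by omega), Nat.sub_add_cancel h4]
    exact ⟨Or.inr rfl, h3⟩

/-- Consecutive layers. -/
theorem layer_match (h0 : ∀ s < m, c 0 s = false)
    (h1 : ∀ τ < m * n, (∀ s < m + n, s ≠ opA m n τ → s ≠ opA m n τ + 1 → c (τ + 1) s = c τ s) ∧
      c (τ + 1) (opA m n τ) = c τ (opA m n τ + 1) ∧
      c (τ + 1) (opA m n τ + 1) = (c τ (opA m n τ) || (pos τ && c τ (opA m n τ + 1)) ||
        (neg τ && !c τ (opA m n τ + 1))))
    (h2 : ∀ s, n ≤ s → s < m + n → c (m * n) s = true) {l : ℕ} (hl : l < 3 * (m * n) + 2) :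
    List.Forall₂ (fun p q => (p, q) ∈ edges m n pos neg) (lay (m + n) (Lf m n c l) l)
      (lay (m + n) (Rt m n c (l + 1)) (l + 1)) := by
  by_cases hl0 : l = 0
  · subst hl0
    refine forall₂_flatMap (fun s hs => ?_)
    rw [List.mem_range] at hs
    refine slot_single (by omega) hs hs (Lf_zero c s) (Rt_can c 0 s) ?_
    rw [edg_zero]
    refine ⟨rfl, ?_⟩
    by_cases h : s < m
    · rw [h0 s h]; exact Or.inl rfl
    · cases c 0 s
      · exact Or.inl rfl
      · exact Or.inr ⟨rfl, by omega⟩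
  by_cases hl1 : l = 3 * (m * n) + 1
  · subst hl1
    refine forall₂_flatMap (fun s hs => ?_)
    rw [List.mem_range] at hs
    refine slot_single (by omega) hs hs (Lf_can c _ s) (Rt_last c s) ?_
    rw [edg_last]
    refine ⟨rfl, ?_⟩
    by_cases h : n ≤ s
    · rw [h2 s h hs]; exact Or.inl rfl
    · cases c (m * n) s
      · exact Or.inr ⟨rfl, by omega⟩
      · exact Or.inl rfl
  obtain ⟨τ, u, hτ, hu, rfl⟩ : ∃ τ u, τ < m * n ∧ u < 3 ∧ l = 3 * τ + 1 + u :=
    ⟨(l - 1) / 3, (l - 1) % 3, by omega, by omega, by omega⟩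
  have ha := opA_lt hτ
  obtain ⟨h3, h4, h5⟩ := h1 τ hτ
  rw [lay_split ha, lay_split ha]
  refine List.rel_append (forall₂_flatMap (fun s hs => ?_)) (List.rel_append ?_
    (forall₂_flatMap (fun s hs => ?_)))
  · rw [List.mem_range] at hs
    exact slot_copy hτ hu (by omega) (by omega) (by omega) (h3 s (by omega) (by omega) (by omega))
  · rcases (by omega : u = 0 ∨ u = 1 ∨ u = 2) with rfl | rfl | rfl
    · exact gadget_zero hτ h5
    · exact gadget_one hτ
    · exact gadget_two hτ h4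
  · rw [List.mem_range] at hs
    exact slot_copy hτ hu (by omega) (by omega) (by omega) (h3 _ (by omega) (by omega) (by omega))

end pass

/-- Completeness of the tape graph. -/
theorem complete {m n : ℕ} (hN : 0 < m + n) {pos neg : ℕ → Bool} {c : ℕ → ℕ → Bool}
    (h0 : ∀ s < m, c 0 s = false)
    (h1 : ∀ τ < m * n, (∀ s < m + n, s ≠ opA m n τ → s ≠ opA m n τ + 1 → c (τ + 1) s = c τ s) ∧
      c (τ + 1) (opA m n τ) = c τ (opA m n τ + 1) ∧
      c (τ + 1) (opA m n τ + 1) = (c τ (opA m n τ) || (pos τ && c τ (opA m n τ + 1)) ||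
        (neg τ && !c τ (opA m n τ + 1))))
    (h2 : ∀ s, n ≤ s → s < m + n → c (m * n) s = true) :
    ∃ M : Finset (ℕ × ℕ), (∀ e ∈ M, e ∈ edges m n pos neg) ∧
      (∀ e ∈ M, ∀ f ∈ M, e ≠ f → CompE e f) ∧ (verts m n).length ≤ 2 * M.card := by
  have hA := lays_sorted (N := m + n) (T := 3 * (m * n) + 2) (d := 0) (F := Lf m n c)
    (Lf_sorted c) (fun l s o ho => (mem_Lf.1 ho).1)
  have hB := lays_sorted (N := m + n) (T := 3 * (m * n) + 2) (d := 1) (F := Rt m n c)
    (Rt_sorted c) (fun l s o ho => (mem_Rt.1 ho).1)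
  obtain ⟨M, hM1, hM2, hM3, hM4⟩ := exists_matching hA hB (by
    intro p hp hq
    obtain ⟨l, -, hp⟩ := List.mem_flatMap.1 hp
    obtain ⟨s, hs, o, ho, rfl⟩ := mem_lay.1 hp
    obtain ⟨l', -, hq⟩ := List.mem_flatMap.1 hq
    obtain ⟨s', hs', o', ho', he⟩ := mem_lay.1 hq
    obtain ⟨h3, h4, h5⟩ := pst_inj hs (mem_Lf.1 ho).1 hs' (mem_Rt.1 ho').1 he
    have h6 := (mem_Lf.1 ho).2.2
    have h7 := (mem_Rt.1 ho').2.2
    rw [← h3, ← h4, ← h5, h6] at h7
    exact absurd h7 (by simp))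
    (forall₂_flatMap (fun l hl => layer_match h0 h1 h2 (List.mem_range.1 hl)))
  refine ⟨M, hM1, hM2, ?_⟩
  have h3 : (verts m n).length ≤
      (((List.range (3 * (m * n) + 2)).flatMap (fun l => lay (m + n) (Lf m n c (l + 0)) (l + 0))) ++
      ((List.range (3 * (m * n) + 2)).flatMap
        (fun l => lay (m + n) (Rt m n c (l + 1)) (l + 1)))).length := by
    refine ((verts_nodup m n).subperm ?_).length_le
    intro p hp
    obtain ⟨l, s, o, hl, hs, ho, rfl, hv⟩ := of_mem_verts hN hp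
    rw [List.mem_append]
    rcases hb : lab m n c l s o with _ | _
    · right
      have hl0 : l ≠ 0 := by
        rintro rfl
        rw [lab, if_pos rfl] at hb
        exact absurd hb (by simp)
      refine List.mem_flatMap.2 ⟨l - 1, List.mem_range.2 (by omega), ?_⟩
      rw [Nat.sub_add_cancel (by omega)]
      exact mem_lay.2 ⟨s, hs, o, mem_Rt.2 ⟨ho, hv, hb⟩, rfl⟩
    · left
      have hl0 : l ≠ 3 * (m * n) + 2 := by
        rintro rfl
        rw [lab, if_neg (by omega), if_pos rfl] at hb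
        exact absurd hb (by simp)
      refine List.mem_flatMap.2 ⟨l, List.mem_range.2 (by omega), ?_⟩
      exact mem_lay.2 ⟨s, hs, o, mem_Lf.2 ⟨ho, hv, hb⟩, rfl⟩
  rw [List.length_append, ← hM3, ← hM4] at h3
  omega

end Pool.Agent.X249.NF
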