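import Pool.Agent.X249.NF.Main

/-!
# Comparable subsets which use all intervals of the ground set
-/

set_option autoImplicit false

namespace Pool.Agent.X249.NF

open Pool.Agent.NPC Pool.Agent.X249

/-- `l` lists a set of 2-intervals with a disjoint ground set, and some comparable subset (in the
model {<, crossing}) uses all intervals of the ground set. -/
def Covering (l : List TwoInt) : Prop :=
  DisjointGround l ∧ ∃ C : Finset TwoInt, (∀ D ∈ C, D ∈ l) ∧
    (∀ D ∈ C, ∀ D' ∈ C, D ≠ D' → Comp D D') ∧ ∀ I ∈ ground l, ∃ D ∈ C, I = D.1 ∨ I = D.2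

/-- The verified relation. -/
def RelC (l : List TwoInt) (w : List TwoInt) : Prop :=
  Rel (l, 0) w ∧ ∀ I ∈ l.flatMap (fun D => [D.1, D.2]), ∃ D ∈ w, I = D.1 ∨ I = D.2

@[fun_prop]
theorem poly_relC : Poly (fun x : List TwoInt × List TwoInt =>
    @decide (RelC x.1 x.2) (Classical.propDecidable _)) := by
  unfold RelC Rel
  fun_prop

theorem covering_iff (l : List TwoInt) :
    Covering l ↔ ∃ w, sz w ≤ (Polynomial.X : Polynomial ℕ).eval (sz l) ∧ RelC l w := by
  constructor
  · rintro ⟨⟨h1, h2, h3⟩, C, hC, hcomp, hk⟩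
    have hmem : ∀ D ∈ C, D ∈ l.filter (fun x => decide (x ∈ C)) := by
      intro D hD
      rw [List.mem_filter]
      exact ⟨hC D hD, by simpa using hD⟩
    have hmem' : ∀ D ∈ l.filter (fun x => decide (x ∈ C)), D ∈ C := by
      intro D hD
      simpa using (List.mem_filter.1 hD).2
    refine ⟨l.filter (fun x => decide (x ∈ C)), ?_, ⟨⟨h1, h2, ?_⟩, h1.filter _, ?_, ?_, ?_⟩, ?_⟩
    · rw [Polynomial.eval_X]
      exact sz_filter_le _ l
    · intro J hJ J' hJ'
      by_cases h : J = J'
      · exact Or.inl h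
      · exact Or.inr (h3 J hJ J' hJ' h)
    · intro x hx
      exact (List.mem_filter.1 hx).1
    · exact Nat.zero_le _
    · intro D hD D' hD'
      by_cases h : D = D'
      · exact Or.inl h
      · exact Or.inr (hcomp D (hmem' D hD) D' (hmem' D' hD') h)
    · intro I hI
      obtain ⟨D, hD, h⟩ := hk I hI
      exact ⟨D, hmem D hD, h⟩
  · rintro ⟨w, -, ⟨⟨h1, h2, h3⟩, hw, hwl, hk, hcomp⟩, hcov⟩
    refine ⟨⟨h1, h2, ?_⟩, w.toFinset, ?_, ?_, ?_⟩
    · intro J hJ J' hJ' h
      rcases h3 J hJ J' hJ' with h4 | h4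
      · exact absurd h4 h
      · exact h4
    · intro D hD
      exact hwl D (List.mem_toFinset.1 hD)
    · intro D hD D' hD' h
      rcases hcomp D (List.mem_toFinset.1 hD) D' (List.mem_toFinset.1 hD') with h4 | h4
      · exact absurd h4 h
      · exact h4
    · intro I hI
      obtain ⟨D, hD, h⟩ := hcov I hI
      exact ⟨D, List.mem_toFinset.2 hD, h⟩

theorem inNP_covering : InNPP Covering :=
  inNPP_rel poly_relC Polynomial.X covering_iff

/-- Every vertex has an edge. -/
theorem exists_edge {m n : ℕ} (hm : 0 < m) (hn : 0 < n) {pos neg : ℕ → Bool} {p : ℕ}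
    (hp : p ∈ verts m n) : ∃ q, (p, q) ∈ edges m n pos neg ∨ (q, p) ∈ edges m n pos neg := by
  have hN : 0 < m + n := by omega
  have hK : 0 < m * n := Nat.mul_pos hm hn
  obtain ⟨l, s, o, hl, hs, ho, rfl, hv⟩ := of_mem_verts hN hp
  by_cases hl0 : l = 0
  · subst hl0
    refine ⟨pst (m + n) (3 * 0 + 1) s 1, Or.inl ?_⟩
    rw [mem_edges (by omega) hs ho (by omega) hs (by omega), edg_zero]
    exact ⟨⟨hv, by rw [val_can']; rfl⟩, rfl, rfl, Or.inl rfl⟩
  by_cases hl2 : l = 3 * (m * n) + 2
  · subst hl2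
    refine ⟨pst (m + n) (3 * (m * n) + 1) s 1, Or.inr ?_⟩
    rw [mem_edges (by omega) hs (by omega) (by omega) hs ho, edg_last]
    exact ⟨⟨by rw [val_can']; rfl, hv⟩, rfl, rfl, Or.inl rfl⟩
  by_cases hl1 : l = 3 * (m * n) + 1
  · subst hl1
    rw [val_can', decide_eq_true_eq] at hv
    by_cases h : o = 1 ∨ (o = 0 ∧ s < n)
    · refine ⟨pst (m + n) (3 * (m * n) + 2) s 0, Or.inl ?_⟩
      rw [mem_edges (by omega) hs (by omega) (by omega) hs (by omega), edg_last]
      exact ⟨⟨by rw [val_can']; exact decide_eq_true hv, by rw [val_last]; rfl⟩, rfl, rfl, h⟩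
    · obtain rfl : o = 0 := by omega
      obtain ⟨τ, hτ⟩ : ∃ τ, τ + 1 = m * n := ⟨m * n - 1, by omega⟩
      have hτ' : τ < m * n := by omega
      have e : 3 * (m * n) + 1 = 3 * τ + 1 + 2 + 1 := by omega
      have ha := opA_lt hτ'
      by_cases h1 : s = opA m n τ
      · refine ⟨pst (m + n) (3 * τ + 1 + 2) (opA m n τ) 2, Or.inr ?_⟩
        rw [mem_edges (by omega) (by omega) (by omega) (by omega) hs (by omega),
          edg_twoPass hτ' _ _ (Or.inl rfl), val_mid hτ' (Or.inr rfl), if_pos rfl, val_can', idx,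
          if_pos h1]
        exact ⟨⟨rfl, rfl⟩, e, Or.inl h1, by decide⟩
      · by_cases h2 : s = opA m n τ + 1
        · refine ⟨pst (m + n) (3 * τ + 1 + 2) (opA m n τ) 4, Or.inr ?_⟩
          rw [mem_edges (by omega) (by omega) (by omega) (by omega) hs (by omega),
            edg_twoPass hτ' _ _ (Or.inl rfl), val_mid hτ' (Or.inr rfl), if_pos rfl, val_can', idx,
            if_neg h1]
          exact ⟨⟨rfl, rfl⟩, e, Or.inr h2, by decide⟩
        · refine ⟨pst (m + n) (3 * τ + 1 + 2) s 1, Or.inr ?_⟩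
          rw [mem_edges (by omega) (by omega) (by omega) (by omega) hs (by omega),
            edg_copy hτ' (by omega) _ _ h1 h2, val_mid hτ' (Or.inr rfl), if_neg h1, if_neg h2,
            val_can']
          exact ⟨⟨rfl, rfl⟩, e, rfl, Or.inr ⟨rfl, rfl⟩⟩
  obtain ⟨τ, u, hτ, hu, rfl⟩ : ∃ τ u, τ < m * n ∧ u < 3 ∧ l = 3 * τ + 1 + u :=
    ⟨(l - 1) / 3, (l - 1) % 3, by omega, by omega, by omega⟩
  have ha := opA_lt hτ
  by_cases h12 : s = opA m n τ ∨ s = opA m n τ + 1
  · rcases (by omega : u = 0 ∨ u = 1 ∨ u = 2) with rfl | rfl | rfl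
    · -- first pass
      have hv' : val m n (3 * τ + 1) s o = true := hv
      rw [val_can', decide_eq_true_eq] at hv'
      have key : ∀ i < 4, ∃ j < 5, (i, j) ∈ g0 (pos τ) (neg τ) := by
        cases pos τ <;> cases neg τ <;> decide
      obtain ⟨j, hj, hij⟩ := key (idx (opA m n τ) s o) (by unfold idx; split_ifs <;> omega)
      refine ⟨pst (m + n) (3 * τ + 1 + 0 + 1) (opA m n τ) j, Or.inl ?_⟩
      rw [mem_edges (by omega) hs ho (by omega) (by omega) hj]
      refine ⟨⟨hv, ?_⟩, rfl, ?_⟩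
      · have := val_mid hτ (Or.inl rfl) (opA m n τ) j
        rw [if_pos rfl] at this
        exact this
      · exact (edg_zeroPass hτ pos neg h12 o _ _).2 ⟨Or.inl rfl, hij⟩
    · have key : ∀ i < 5, ∃ j < 5, (i, j) ∈ g1 := by decide
      obtain ⟨j, hj, hij⟩ := key o ho
      refine ⟨pst (m + n) (3 * τ + 1 + 1 + 1) (opA m n τ) j, Or.inl ?_⟩
      rw [mem_edges (by omega) hs ho (by omega) (by omega) hj]
      refine ⟨⟨hv, ?_⟩, rfl, ?_⟩
      · have := val_mid hτ (Or.inr rfl) (opA m n τ) j
        rw [if_pos rfl] at this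
        exact this
      · exact (edg_onePass hτ pos neg h12 o _ _).2 ⟨Or.inl rfl, hij⟩
    · have key : ∀ i < 5, (∃ j < 2, (i, j) ∈ g2) ∨ (∃ j < 2, (i, j + 2) ∈ g2) := by decide
      rcases key o ho with ⟨j, hj, hij⟩ | ⟨j, hj, hij⟩
      · refine ⟨pst (m + n) (3 * τ + 1 + 2 + 1) (opA m n τ) j, Or.inl ?_⟩
        rw [mem_edges (by omega) hs ho (by omega) (by omega) (by omega)]
        refine ⟨⟨hv, ?_⟩, rfl, ?_⟩
        · exact (val_can' m n (τ + 1) _ _).trans (decide_eq_true hj)
        · rw [edg_twoPass hτ pos neg h12, idx, if_pos rfl]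
          exact ⟨Or.inl rfl, hij⟩
      · refine ⟨pst (m + n) (3 * τ + 1 + 2 + 1) (opA m n τ + 1) j, Or.inl ?_⟩
        rw [mem_edges (by omega) hs ho (by omega) (by omega) (by omega)]
        refine ⟨⟨hv, ?_⟩, rfl, ?_⟩
        · exact (val_can' m n (τ + 1) _ _).trans (decide_eq_true hj)
        · rw [edg_twoPass hτ pos neg h12, idx, if_neg (by omega)]
          exact ⟨Or.inr rfl, hij⟩
  · push Not at h12
    have ho2 : o < 2 := by
      rcases (by omega : u = 0 ∨ (u = 1 ∨ u = 2)) with rfl | h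
      · have hv' : val m n (3 * τ + 1) s o = true := hv
        rw [val_can', decide_eq_true_eq] at hv'
        exact hv'
      · rw [val_mid hτ h, if_neg h12.1, if_neg h12.2, decide_eq_true_eq] at hv
        exact hv
    refine ⟨pst (m + n) (3 * τ + 1 + u + 1) s (1 - o), Or.inl ?_⟩
    rw [mem_edges (by omega) hs ho (by omega) hs (by omega), edg_copy hτ hu pos neg h12.1 h12.2]
    refine ⟨⟨hv, ?_⟩, rfl, rfl, by omega⟩
    rcases (by omega : u = 0 ∨ u = 1 ∨ u = 2) with rfl | rfl | rfl
    · rw [show 3 * τ + 1 + 0 + 1 = 3 * τ + 1 + 1 from rfl, val_mid hτ (Or.inl rfl), if_neg h12.1,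
        if_neg h12.2]
      exact decide_eq_true (by omega)
    · rw [show 3 * τ + 1 + 1 + 1 = 3 * τ + 1 + 2 from rfl, val_mid hτ (Or.inr rfl), if_neg h12.1,
        if_neg h12.2]
      exact decide_eq_true (by omega)
    · rw [show 3 * τ + 1 + 2 + 1 = 3 * (τ + 1) + 1 by ring, val_can']
      exact decide_eq_true (by omega)

/-- A covering comparable subset, for graphs without isolated vertices. -/
theorem covering_graph {E : List (ℕ × ℕ)} {V : List ℕ} (hE : E.Nodup) (hlt : ∀ e ∈ E, e.1 < e.2)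
    (hV : V.Nodup) (hEV : ∀ e ∈ E, e.1 ∈ V ∧ e.2 ∈ V)
    (hVE : ∀ p ∈ V, ∃ q, (p, q) ∈ E ∨ (q, p) ∈ E) :
    Covering (E.map twoInt) ↔ ∃ M : Finset (ℕ × ℕ), (∀ e ∈ M, e ∈ E) ∧
      (∀ e ∈ M, ∀ f ∈ M, e ≠ f → CompE e f) ∧ V.length ≤ 2 * M.card := by
  rw [Covering, and_iff_right (disjointGround_map hE hlt)]
  constructor
  · rintro ⟨C, hC, hcomp, hk⟩
    refine ⟨(E.filter (fun e => decide (twoInt e ∈ C))).toFinset, ?_, ?_, ?_⟩
    · intro e he
      exact (List.mem_filter.1 (List.mem_toFinset.1 he)).1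
    · intro e he f hf hne
      have he' := List.mem_filter.1 (List.mem_toFinset.1 he)
      have hf' := List.mem_filter.1 (List.mem_toFinset.1 hf)
      exact (comp_iff (hlt e he'.1) (hlt f hf'.1)).1 (hcomp _ (by simpa using he'.2) _
        (by simpa using hf'.2) (fun h => hne (twoInt_inj h)))
    · set M := (E.filter (fun e => decide (twoInt e ∈ C))).toFinset with hM
      have hsub : V.toFinset ⊆ lefts M ∪ rights M := by
        intro p hp
        have hg : ((2 * p, 2 * p + 1) : Intv) ∈ ground (E.map twoInt) := by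
          rw [ground, List.mem_flatMap]
          obtain ⟨q, hq | hq⟩ := hVE p (List.mem_toFinset.1 hp)
          · exact ⟨_, List.mem_map_of_mem hq, by simp [twoInt]⟩
          · exact ⟨_, List.mem_map_of_mem hq, by simp [twoInt]⟩
        obtain ⟨D, hD, hI⟩ := hk _ hg
        obtain ⟨e, he, rfl⟩ := List.mem_map.1 (hC D hD)
        have heM : e ∈ M := by
          rw [hM, List.mem_toFinset, List.mem_filter]
          exact ⟨he, by simpa using hD⟩
        simp only [twoInt, Prod.mk.injEq] at hI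
        rw [Finset.mem_union]
        rcases hI with ⟨h1, -⟩ | ⟨h1, -⟩
        · left
          have : p = e.1 := by omega
          subst this
          exact mem_lefts.2 ⟨e.2, heM⟩
        · right
          have : p = e.2 := by omega
          subst this
          exact mem_rights.2 ⟨e.1, heM⟩
      have h1 := Finset.card_le_card hsub
      rw [List.toFinset_card_of_nodup hV] at h1
      have h2 : (lefts M ∪ rights M).card ≤ (lefts M).card + (rights M).card :=
        Finset.card_union_le _ _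
      have h3 : (lefts M).card ≤ M.card := Finset.card_image_le
      have h4 : (rights M).card ≤ M.card := Finset.card_image_le
      omega
  · rintro ⟨M, hM, hcomp, hk⟩
    have hcov := covers hcomp (fun e he => hlt e (hM e he)) (V := V)
      (fun e he => hEV e (hM e he)) hk
    refine ⟨M.image twoInt, ?_, ?_, ?_⟩
    · intro D hD
      obtain ⟨e, he, rfl⟩ := Finset.mem_image.1 hD
      exact List.mem_map_of_mem (hM e he)
    · intro D hD D' hD' hne
      obtain ⟨e, he, rfl⟩ := Finset.mem_image.1 hD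
      obtain ⟨f, hf, rfl⟩ := Finset.mem_image.1 hD'
      exact (comp_iff (hlt e (hM e he)) (hlt f (hM f hf))).2
        (hcomp e he f hf (fun h => hne (by rw [h])))
    · have key : ∀ p ∈ V, ∃ D ∈ M.image twoInt, ((2 * p, 2 * p + 1) : Intv) = D.1 ∨
          ((2 * p, 2 * p + 1) : Intv) = D.2 := by
        intro p hp
        by_cases h : p ∈ lefts M
        · obtain ⟨q, hq⟩ := mem_lefts.1 h
          exact ⟨_, Finset.mem_image_of_mem _ hq, Or.inl rfl⟩
        · obtain ⟨q, hq⟩ := mem_rights.1 ((hcov p hp).2 h)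
          exact ⟨_, Finset.mem_image_of_mem _ hq, Or.inr rfl⟩
      intro I hI
      rw [ground, List.mem_flatMap] at hI
      obtain ⟨D, hD, hI⟩ := hI
      obtain ⟨e, he, rfl⟩ := List.mem_map.1 hD
      simp only [twoInt, List.mem_cons, List.not_mem_nil, or_false] at hI
      rcases hI with rfl | rfl
      · exact key _ (hEV e he).1
      · exact key _ (hEV e he).2

/-- The reduction for the covering version. -/
theorem cover_iff {φ : List C3} (hb : Bounded3 φ) (hne : φ ≠ []) :
    SAT3 φ ↔ Covering (inst φ).1 := by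
  have hm : 0 < φ.length := List.length_pos_iff.2 hne
  have hN : 0 < φ.length + 3 * φ.length := by omega
  rw [inst_iff hb hne, inst, pattern_graph (edges_nodup _ _ _ _) (edges_lt hN),
    covering_graph (edges_nodup _ _ _ _) (edges_lt hN) (verts_nodup φ.length (3 * φ.length)) ?_
      (fun p hp => exists_edge hm (by omega) hp)]
  · constructor
    · rintro ⟨M, hM1, hM2, hM3⟩
      exact ⟨M, hM1, hM2, by omega⟩
    · rintro ⟨M, hM1, hM2, hM3⟩
      exact ⟨M, hM1, hM2, by omega⟩
  · intro e he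
    rw [edges, List.mem_filter, List.mem_product] at he
    exact he.1

theorem hard_covering : HardI Covering :=
  (hardPr_SAT3b.trans (Pr' := fun _ => True) (Poly.fst poly_inst) (fun _ _ => trivial)
    (fun _ h => cover_iff h.2.1 h.2.2)).toHardI

end Pool.Agent.X249.NF
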