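import Pool.Agent.X249.Kit

/-!
# 2-intervals and the 2-interval pattern problem for the model {<, crossing}
-/

set_option autoImplicit false

namespace Pool.Agent.X249.NF

open Pool.Agent.NPC

/-- A closed interval `[I.1, I.2]` of the real line, with natural numbers as ends. -/
abbrev Intv : Type := ℕ × ℕ

/-- A pair of intervals. -/
abbrev TwoInt : Type := Intv × Intv

/-- Every point of the interval `I` is smaller than every point of the interval `J`. -/
def Before (I J : Intv) : Prop := I.2 < J.1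

/-- `D` is a 2-interval: a pair of nonempty intervals, the first before the second. -/
def IsTwoInt (D : TwoInt) : Prop := D.1.1 ≤ D.1.2 ∧ D.2.1 ≤ D.2.2 ∧ Before D.1 D.2

/-- Two intervals have no common point. -/
def Apart (I J : Intv) : Prop := Before I J ∨ Before J I

/-- Disjoint 2-intervals: no interval of the first meets an interval of the second. -/
def Disj (D D' : TwoInt) : Prop :=
  Apart D.1 D'.1 ∧ Apart D.1 D'.2 ∧ Apart D.2 D'.1 ∧ Apart D.2 D'.2

/-- `D` precedes `D'`. -/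
def Precedes (D D' : TwoInt) : Prop := Before D.1 D.2 ∧ Before D.2 D'.1 ∧ Before D'.1 D'.2

/-- `D` crosses `D'`. -/
def Crosses (D D' : TwoInt) : Prop := Before D.1 D'.1 ∧ Before D'.1 D.2 ∧ Before D.2 D'.2

/-- `D` and `D'` are disjoint, and comparable in the model {<, crossing}. -/
def Comp (D D' : TwoInt) : Prop :=
  Disj D D' ∧ (Precedes D D' ∨ Precedes D' D ∨ Crosses D D' ∨ Crosses D' D)

/-- The list of the intervals of the 2-intervals in the list `l`: the interval ground set. -/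
def ground (l : List TwoInt) : List Intv := l.flatMap (fun D => [D.1, D.2])

/-- `l` lists a set of 2-intervals whose interval ground set is disjoint. -/
def DisjointGround (l : List TwoInt) : Prop :=
  l.Nodup ∧ (∀ D ∈ l, IsTwoInt D) ∧ ∀ I ∈ ground l, ∀ J ∈ ground l, I ≠ J → Apart I J

/-- The 2-interval-pattern problem for the model {<, crossing} and disjoint interval ground sets:
does the set of 2-intervals have a comparable subset with at least `k` members? -/
def Pattern (I : List TwoInt × ℕ) : Prop :=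
  DisjointGround I.1 ∧ ∃ C : Finset TwoInt, (∀ D ∈ C, D ∈ I.1) ∧
    (∀ D ∈ C, ∀ D' ∈ C, D ≠ D' → Comp D D') ∧ I.2 ≤ C.card

/-! ### Membership in NP -/

/-- The verified relation; the certificate lists the subset. -/
def Rel (I : List TwoInt × ℕ) (w : List TwoInt) : Prop :=
  (I.1.Nodup ∧ (∀ D ∈ I.1, D.1.1 ≤ D.1.2 ∧ D.2.1 ≤ D.2.2 ∧ D.1.2 < D.2.1) ∧
    ∀ J ∈ I.1.flatMap (fun D => [D.1, D.2]), ∀ J' ∈ I.1.flatMap (fun D => [D.1, D.2]),
      J = J' ∨ J.2 < J'.1 ∨ J'.2 < J.1) ∧
  w.Nodup ∧ (∀ D ∈ w, D ∈ I.1) ∧ I.2 ≤ w.length ∧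
  ∀ D ∈ w, ∀ D' ∈ w, D = D' ∨
    (((D.1.2 < D'.1.1 ∨ D'.1.2 < D.1.1) ∧ (D.1.2 < D'.2.1 ∨ D'.2.2 < D.1.1) ∧
      (D.2.2 < D'.1.1 ∨ D'.1.2 < D.2.1) ∧ (D.2.2 < D'.2.1 ∨ D'.2.2 < D.2.1)) ∧
    ((D.1.2 < D.2.1 ∧ D.2.2 < D'.1.1 ∧ D'.1.2 < D'.2.1) ∨
      (D'.1.2 < D'.2.1 ∧ D'.2.2 < D.1.1 ∧ D.1.2 < D.2.1) ∨
      (D.1.2 < D'.1.1 ∧ D'.1.2 < D.2.1 ∧ D.2.2 < D'.2.1) ∨
      (D'.1.2 < D.1.1 ∧ D.1.2 < D'.2.1 ∧ D'.2.2 < D.2.1)))

theorem poly_rel : Poly (fun x : (List TwoInt × ℕ) × List TwoInt =>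
    @decide (Rel x.1 x.2) (Classical.propDecidable _)) := by
  unfold Rel
  fun_prop

theorem pattern_iff (I : List TwoInt × ℕ) :
    Pattern I ↔ ∃ w, sz w ≤ (Polynomial.X : Polynomial ℕ).eval (sz I) ∧ Rel I w := by
  constructor
  · rintro ⟨⟨h1, h2, h3⟩, C, hC, hcomp, hk⟩
    refine ⟨I.1.filter (fun x => decide (x ∈ C)), ?_, ⟨h1, h2, ?_⟩, h1.filter _, ?_, ?_, ?_⟩
    · rw [Polynomial.eval_X]
      obtain ⟨l, k⟩ := I
      have := sz_filter_le (fun x => decide (x ∈ C)) l
      simp only [sz_pair]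
      omega
    · intro J hJ J' hJ'
      by_cases h : J = J'
      · exact Or.inl h
      · exact Or.inr (h3 J hJ J' hJ' h)
    · intro x hx
      exact (List.mem_filter.1 hx).1
    · refine hk.trans ?_
      rw [← List.toFinset_card_of_nodup (h1.filter _)]
      apply Finset.card_le_card
      intro x hx
      rw [List.mem_toFinset, List.mem_filter]
      exact ⟨hC x hx, by simpa using hx⟩
    · intro D hD D' hD'
      by_cases h : D = D'
      · exact Or.inl h
      · right
        have h4 : D ∈ C := by simpa using (List.mem_filter.1 hD).2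
        have h5 : D' ∈ C := by simpa using (List.mem_filter.1 hD').2
        exact hcomp D h4 D' h5 h
  · rintro ⟨w, -, ⟨h1, h2, h3⟩, hw, hwl, hk, hcomp⟩
    refine ⟨⟨h1, h2, ?_⟩, w.toFinset, ?_, ?_, ?_⟩
    · intro J hJ J' hJ' h
      rcases h3 J hJ J' hJ' with h4 | h4
      · exact absurd h4 h
      · exact h4
    · intro D hD
      exact hwl D (List.mem_toFinset.1 hD)
    · intro D hD D' hD' h
      rcases hcomp D (List.mem_toFinset.1 hD) D' (List.mem_toFinset.1 hD') with h4 | h4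
      · exact absurd h4 h
      · exact h4
    · rwa [List.toFinset_card_of_nodup hw]

theorem inNP_pattern : InNPP Pattern :=
  inNPP_rel poly_rel Polynomial.X pattern_iff

/-! ### 2-intervals from the edges of an ordered graph -/

/-- The 2-interval of the edge `{i, j}` of a graph with natural numbers as vertices. -/
def twoInt (e : ℕ × ℕ) : TwoInt := ((2 * e.1, 2 * e.1 + 1), (2 * e.2, 2 * e.2 + 1))

theorem twoInt_inj {e f : ℕ × ℕ} (h : twoInt e = twoInt f) : e = f := by
  simp only [twoInt, Prod.mk.injEq] at h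
  exact Prod.ext (by omega) (by omega)

theorem disjointGround_map {E : List (ℕ × ℕ)} (hE : E.Nodup) (hlt : ∀ e ∈ E, e.1 < e.2) :
    DisjointGround (E.map twoInt) := by
  refine ⟨hE.map (fun _ _ h => twoInt_inj h), ?_, ?_⟩
  · intro D hD
    obtain ⟨e, he, rfl⟩ := List.mem_map.1 hD
    have := hlt e he
    refine ⟨?_, ?_, ?_⟩
    · simp [twoInt]
    · simp [twoInt]
    · simp only [Before, twoInt]; omega
  · have key : ∀ J ∈ ground (E.map twoInt), ∃ i : ℕ, J = (2 * i, 2 * i + 1) := by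
      intro J hJ
      rw [ground, List.mem_flatMap] at hJ
      obtain ⟨D, hD, hJ⟩ := hJ
      obtain ⟨e, he, rfl⟩ := List.mem_map.1 hD
      simp only [twoInt, List.mem_cons, List.not_mem_nil, or_false] at hJ
      rcases hJ with rfl | rfl
      · exact ⟨_, rfl⟩
      · exact ⟨_, rfl⟩
    intro J hJ J' hJ' hne
    obtain ⟨i, rfl⟩ := key J hJ
    obtain ⟨i', rfl⟩ := key J' hJ'
    have : i ≠ i' := fun h => hne (by rw [h])
    simp only [Apart, Before]
    omega

/-- Comparable edges. -/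
def CompE (e f : ℕ × ℕ) : Prop :=
  ((e.1 < f.1 ∧ e.2 < f.2) ∨ (f.1 < e.1 ∧ f.2 < e.2)) ∧ e.1 ≠ f.2 ∧ f.1 ≠ e.2

theorem comp_iff {e f : ℕ × ℕ} (he : e.1 < e.2) (hf : f.1 < f.2) :
    Comp (twoInt e) (twoInt f) ↔ CompE e f := by
  simp only [Comp, Disj, Precedes, Crosses, Apart, Before, twoInt, CompE]
  omega

/-- A comparable subset, for graphs. -/
theorem pattern_graph {E : List (ℕ × ℕ)} {k : ℕ} (hE : E.Nodup) (hlt : ∀ e ∈ E, e.1 < e.2) :
    Pattern (E.map twoInt, k) ↔ ∃ M : Finset (ℕ × ℕ), (∀ e ∈ M, e ∈ E) ∧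
      (∀ e ∈ M, ∀ f ∈ M, e ≠ f → CompE e f) ∧ k ≤ M.card := by
  rw [Pattern, and_iff_right (disjointGround_map hE hlt)]
  constructor
  · rintro ⟨C, hC, hcomp, hk⟩
    have hex : ∀ D ∈ C, ∃ e ∈ E, twoInt e = D := fun D hD => List.mem_map.1 (hC D hD)
    refine ⟨(E.filter (fun e => decide (twoInt e ∈ C))).toFinset, ?_, ?_, ?_⟩
    · intro e he
      exact (List.mem_filter.1 (List.mem_toFinset.1 he)).1
    · intro e he f hf hne
      have he' := List.mem_filter.1 (List.mem_toFinset.1 he)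
      have hf' := List.mem_filter.1 (List.mem_toFinset.1 hf)
      exact (comp_iff (hlt e he'.1) (hlt f hf'.1)).1 (hcomp _ (by simpa using he'.2) _
        (by simpa using hf'.2) (fun h => hne (twoInt_inj h)))
    · refine hk.trans ?_
      have : C ⊆ ((E.filter (fun e => decide (twoInt e ∈ C))).toFinset).image twoInt := by
        intro D hD
        obtain ⟨e, he, rfl⟩ := hex D hD
        exact Finset.mem_image.2 ⟨e, List.mem_toFinset.2 (List.mem_filter.2 ⟨he, by simpa using hD⟩),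
          rfl⟩
      exact (Finset.card_le_card this).trans Finset.card_image_le
  · rintro ⟨M, hM, hcomp, hk⟩
    refine ⟨M.image twoInt, ?_, ?_, ?_⟩
    · intro D hD
      obtain ⟨e, he, rfl⟩ := Finset.mem_image.1 hD
      exact List.mem_map_of_mem (hM e he)
    · intro D hD D' hD' hne
      obtain ⟨e, he, rfl⟩ := Finset.mem_image.1 hD
      obtain ⟨f, hf, rfl⟩ := Finset.mem_image.1 hD'
      exact (comp_iff (hlt e (hM e he)) (hlt f (hM f hf))).2
        (hcomp e he f hf (fun h => hne (by rw [h])))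
    · rw [Finset.card_image_of_injective _ (fun _ _ h => twoInt_inj h)]
      exact hk

end Pool.Agent.X249.NF
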