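import Mathlib

/-!
# The swap gadget: finite checks

Two adjacent cells hold the bits `s` and `x`; after three passes they hold `x` and a bit `s'` which
can be one only if `s` is one, or the flag `pos` is set and `x` is one, or the flag `neg` is set
and `x` is zero.
-/

set_option autoImplicit false

namespace Pool.Agent.X249.NF

/-- The edges of the three passes. -/
def g0 (pos neg : Bool) : List (ℕ × ℕ) :=
  [(1, 0), (1, 2), (2, 2), (3, 4), (0, bif neg then 0 else 1), (0, bif pos then 2 else 3)]
def g1 : List (ℕ × ℕ) := [(0, 0), (0, 2), (1, 1), (2, 4), (3, 2), (3, 3), (4, 3), (4, 4)]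
def g2 : List (ℕ × ℕ) := [(0, 1), (1, 3), (2, 0), (3, 3), (4, 2)]

/-- The values of a list of bits. -/
def gb (l : List Bool) (i : ℕ) : Bool := l.getD i false

/-- The left ends `i < a` with `F i` and the right ends `j < b` without `G j` are matched in
order along the edges in `e`. -/
def Loc (e : List (ℕ × ℕ)) (a b : ℕ) (F G : ℕ → Bool) : Prop :=
  List.Forall₂ (fun i j => (i, j) ∈ e) ((List.range a).filter F)
    ((List.range b).filter (fun j => !G j))

instance (e : List (ℕ × ℕ)) (a b : ℕ) (F G : ℕ → Bool) : Decidable (Loc e a b F G) := by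
  unfold Loc; infer_instance

/-- The states after the first pass. -/
def w1 (t x : Bool) : List Bool :=
  bif t then (bif x then [true, true, false, true, false] else [false, true, false, true, true])
  else (bif x then [true, true, true, false, false] else [true, false, false, true, true])

/-- The states after the second pass. -/
def w2 (t x : Bool) : List Bool :=
  bif t then (bif x then [false, false, true, false, true] else [true, false, false, false, true])
  else (bif x then [false, false, true, true, false] else [true, true, false, false, false])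

/-- Dead ends after the first pass. -/
def d1 : List Bool := [true, false, true, true, false]
def d2 : List Bool := [false, true, true, true, false]

theorem pass0_sound (pos neg s x : Bool) : ∀ (b0 b1 b2 b3 b4 : Bool),
    Loc (g0 pos neg) 4 5 (gb [!s, s, !x, x]) (gb [b0, b1, b2, b3, b4]) →
    ([b0, b1, b2, b3, b4] = w1 false x ∨ ([b0, b1, b2, b3, b4] = w1 true x ∧
      (s = true ∨ (pos = true ∧ x = true) ∨ (neg = true ∧ x = false))) ∨
      [b0, b1, b2, b3, b4] = d1 ∨ [b0, b1, b2, b3, b4] = d2) := by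
  cases pos <;> cases neg <;> cases s <;> cases x <;> decide

theorem pass1_dead : ∀ (b0 b1 b2 b3 b4 : Bool),
    ¬ Loc g1 5 5 (gb d1) (gb [b0, b1, b2, b3, b4]) ∧
    ¬ Loc g1 5 5 (gb d2) (gb [b0, b1, b2, b3, b4]) := by
  decide

theorem pass12_sound (t x : Bool) : ∀ (b0 b1 b2 b3 b4 : Bool),
    Loc g1 5 5 (gb (w1 t x)) (gb [b0, b1, b2, b3, b4]) → ∀ (c0 c1 c2 c3 : Bool),
    Loc g2 5 4 (gb [b0, b1, b2, b3, b4]) (gb [c0, c1, c2, c3]) →
    [c0, c1, c2, c3] = [!x, x, !t, t] ∨ [c0, c1, c2, c3] = [!x, x, true, false] := by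
  cases t <;> cases x <;> decide

/-- The three passes of the gadget. -/
theorem gadget_sound (pos neg s x b0 b1 b2 b3 b4 c0 c1 c2 c3 c4 e0 e1 e2 e3 : Bool)
    (h0 : Loc (g0 pos neg) 4 5 (gb [!s, s, !x, x]) (gb [b0, b1, b2, b3, b4]))
    (h1 : Loc g1 5 5 (gb [b0, b1, b2, b3, b4]) (gb [c0, c1, c2, c3, c4]))
    (h2 : Loc g2 5 4 (gb [c0, c1, c2, c3, c4]) (gb [e0, e1, e2, e3])) :
    e0 = !x ∧ e1 = x ∧ e2 = !e3 ∧
      (e3 = true → s = true ∨ (pos = true ∧ x = true) ∨ (neg = true ∧ x = false)) := by
  rcases pass0_sound pos neg s x b0 b1 b2 b3 b4 h0 with h | ⟨h, hc⟩ | h | h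
  · rw [h] at h1
    have := pass12_sound false x c0 c1 c2 c3 c4 h1 e0 e1 e2 e3 h2
    simp only [List.cons.injEq, and_true] at this
    rcases this with ⟨rfl, rfl, rfl, rfl⟩ | ⟨rfl, rfl, rfl, rfl⟩ <;> simp
  · rw [h] at h1
    have := pass12_sound true x c0 c1 c2 c3 c4 h1 e0 e1 e2 e3 h2
    simp only [List.cons.injEq, and_true] at this
    rcases this with ⟨rfl, rfl, rfl, rfl⟩ | ⟨rfl, rfl, rfl, rfl⟩
    · exact ⟨rfl, rfl, rfl, fun _ => hc⟩
    · simp
  · rw [h] at h1
    exact absurd h1 (pass1_dead c0 c1 c2 c3 c4).1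
  · rw [h] at h1
    exact absurd h1 (pass1_dead c0 c1 c2 c3 c4).2

theorem pass0_complete (pos neg s x : Bool) :
    Loc (g0 pos neg) 4 5 (gb [!s, s, !x, x])
      (gb (w1 (s || (pos && x) || (neg && !x)) x)) := by
  cases pos <;> cases neg <;> cases s <;> cases x <;> decide

theorem pass1_complete (t x : Bool) : Loc g1 5 5 (gb (w1 t x)) (gb (w2 t x)) := by
  cases t <;> cases x <;> decide

theorem pass2_complete (t x : Bool) : Loc g2 5 4 (gb (w2 t x)) (gb [!x, x, !t, t]) := by
  cases t <;> cases x <;> decide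

end Pool.Agent.X249.NF
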