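import Mathlib

/-!
# Tapes of bits

The tape has `m + n` cells. In the beginning the first `m` cells hold zeros (one for each clause)
and the other cells hold an assignment to `n` variables. Then the bit of the clause `j` (for
`j = 0, 1, ...`) moves over all variables to the right; when it passes the variable `i`, it may
become one if the literal of the clause for this variable is true.
-/

set_option autoImplicit false

namespace Pool.Agent.X249.NF

/-- The left one of the two cells changed by the operation with number `τ`. -/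
def opA (m n τ : ℕ) : ℕ := (m - 1 - τ / n) + τ % n

/-- A run. -/
def Run (m n : ℕ) (pos neg : ℕ → Bool) (c : ℕ → ℕ → Bool) : Prop :=
  (∀ s < m, c 0 s = false) ∧
  (∀ τ < m * n, (∀ s < m + n, s ≠ opA m n τ → s ≠ opA m n τ + 1 → c (τ + 1) s = c τ s) ∧
    c (τ + 1) (opA m n τ) = c τ (opA m n τ + 1) ∧
    (c (τ + 1) (opA m n τ + 1) = true → c τ (opA m n τ) = true ∨
      (pos τ = true ∧ c τ (opA m n τ + 1) = true) ∨
      (neg τ = true ∧ c τ (opA m n τ + 1) = false))) ∧
  (∀ s, n ≤ s → s < m + n → c (m * n) s = true)

/-- The literal of the clause `j` for the variable `i` is true. -/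
def LitT (n : ℕ) (pos neg : ℕ → Bool) (v : ℕ → Bool) (j i : ℕ) : Prop :=
  (pos (j * n + i) = true ∧ v i = true) ∨ (neg (j * n + i) = true ∧ v i = false)

/-- The formula is satisfied by `v`. -/
def SatV (m n : ℕ) (pos neg : ℕ → Bool) (v : ℕ → Bool) : Prop :=
  ∀ j < m, ∃ i < n, LitT n pos neg v j i

theorem opA_eq {m n j i jj : ℕ} (hi : i < n) (hj : jj + 1 + j = m) : opA m n (j * n + i) = jj + i := by
  unfold opA
  have h1 : (j * n + i) / n = j := by
    rw [Nat.mul_comm, Nat.mul_add_div (by omega), Nat.div_eq_of_lt hi, Nat.add_zero]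
  have h2 : (j * n + i) % n = i := by
    rw [Nat.mul_comm, Nat.mul_add_mod, Nat.mod_eq_of_lt hi]
  rw [h1, h2]
  omega

/-- The invariant. -/
structure Inv (m n : ℕ) (pos neg : ℕ → Bool) (c : ℕ → ℕ → Bool) (v : ℕ → Bool) (jj j i : ℕ) :
    Prop where
  done : ∀ i' < i, c (j * n + i) (jj + i') = v i'
  todo : ∀ i', i ≤ i' → i' < n → c (j * n + i) (jj + 1 + i') = v i'
  cur : c (j * n + i) (jj + i) = true → ∃ i' < i, LitT n pos neg v j i'
  zero : ∀ s < jj, c (j * n + i) s = false
  old : ∀ j' < j, c (j * n + i) (jj + n + (j - j')) = true → ∃ i' < n, LitT n pos neg v j' i'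

theorem inv_step {m n : ℕ} {pos neg : ℕ → Bool} {c : ℕ → ℕ → Bool} (hc : Run m n pos neg c)
    {v : ℕ → Bool} {jj j i : ℕ} (hj : jj + 1 + j = m) (hi : i < n)
    (h : Inv m n pos neg c v jj j i) : Inv m n pos neg c v jj j (i + 1) := by
  have hτ : j * n + i < m * n := by
    have : (j + 1) * n ≤ m * n := Nat.mul_le_mul_right _ (by omega)
    rw [Nat.add_mul, Nat.one_mul] at this
    omega
  obtain ⟨h1, h2, h3⟩ := hc.2.1 _ hτ
  rw [opA_eq hi hj] at h1 h2 h3
  refine ⟨?_, ?_, ?_, ?_, ?_⟩
  · intro i' hi'
    rw [← Nat.add_assoc]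
    rcases Nat.lt_or_ge i' i with h4 | h4
    · rw [h1 _ (by omega) (by omega) (by omega)]
      exact h.done i' h4
    · have : i' = i := by omega
      subst this
      rw [h2, Nat.add_right_comm]
      exact h.todo i' le_rfl hi
  · intro i' h4 h5
    rw [← Nat.add_assoc, h1 _ (by omega) (by omega) (by omega)]
    exact h.todo i' (by omega) h5
  · intro h4
    rw [← Nat.add_assoc, ← Nat.add_assoc] at h4
    rcases h3 h4 with h5 | h5
    · obtain ⟨i', hi', hl⟩ := h.cur h5
      exact ⟨i', by omega, hl⟩
    · refine ⟨i, by omega, ?_⟩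
      have h6 := h.todo i le_rfl hi
      rw [Nat.add_right_comm] at h6
      rw [h6] at h5
      exact h5
  · intro s hs
    rw [← Nat.add_assoc, h1 _ (by omega) (by omega) (by omega)]
    exact h.zero s hs
  · intro j' hj' h4
    rw [← Nat.add_assoc, h1 _ (by omega) (by omega) (by omega)] at h4
    exact h.old j' hj' h4

theorem inv_all {m n : ℕ} {pos neg : ℕ → Bool} {c : ℕ → ℕ → Bool} (hc : Run m n pos neg c)
    {v : ℕ → Bool} {jj j : ℕ} (hj : jj + 1 + j = m) (h : Inv m n pos neg c v jj j 0) :
    ∀ i ≤ n, Inv m n pos neg c v jj j i := by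
  intro i
  induction i with
  | zero => intro _; exact h
  | succ i ih => intro hi; exact inv_step hc hj (by omega) (ih (by omega))

theorem inv_next {m n : ℕ} {pos neg : ℕ → Bool} {c : ℕ → ℕ → Bool} {v : ℕ → Bool} {jj j : ℕ}
    (h : Inv m n pos neg c v (jj + 1) j n) : Inv m n pos neg c v jj (j + 1) 0 := by
  have e : (j + 1) * n + 0 = j * n + n := by ring
  refine ⟨?_, ?_, ?_, ?_, ?_⟩
  · intro i' hi'; omega
  · intro i' _ h5
    rw [e]
    exact h.done i' h5
  · intro h4
    rw [e, Nat.add_zero, h.zero jj (by omega)] at h4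
    exact absurd h4 (by simp)
  · intro s hs
    rw [e]
    exact h.zero s (by omega)
  · intro j' hj' h4
    rw [e] at h4
    rcases Nat.lt_or_ge j' j with h5 | h5
    · refine h.old j' h5 ?_
      rw [← h4]
      congr 1
      omega
    · have : j' = j := by omega
      subst this
      refine h.cur ?_
      rw [← h4]
      congr 1
      omega

/-- Soundness: from a run to a satisfying assignment. -/
theorem run_sound {m n : ℕ} (hm : 0 < m) {pos neg : ℕ → Bool} {c : ℕ → ℕ → Bool}
    (hc : Run m n pos neg c) : SatV m n pos neg (fun i => c 0 (m + i)) := by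
  have h0 : Inv m n pos neg c (fun i => c 0 (m + i)) (m - 1) 0 0 := by
    refine ⟨?_, ?_, ?_, ?_, ?_⟩
    · intro i' hi'; omega
    · intro i' _ _
      have : m - 1 + 1 + i' = m + i' := by omega
      rw [this, Nat.zero_mul]
    · intro h4
      rw [Nat.zero_mul, Nat.add_zero, Nat.add_zero, hc.1 _ (by omega)] at h4
      exact absurd h4 (by simp)
    · intro s hs
      rw [Nat.zero_mul, Nat.add_zero]
      exact hc.1 s (by omega)
    · intro j' hj'; omega
  have hall : ∀ j jj, jj + 1 + j = m → Inv m n pos neg c (fun i => c 0 (m + i)) jj j n := by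
    intro j
    induction j with
    | zero =>
      intro jj hjj
      have : jj = m - 1 := by omega
      subst this
      exact inv_all hc hjj h0 n le_rfl
    | succ j ih =>
      intro jj hjj
      exact inv_all hc hjj (inv_next (ih (jj + 1) (by omega))) n le_rfl
  have hlast := hall (m - 1) 0 (by omega)
  have e : (m - 1) * n + n = m * n := by
    obtain ⟨m', rfl⟩ := Nat.exists_eq_add_of_le' hm
    rw [Nat.add_sub_cancel, Nat.add_mul, Nat.one_mul]
  intro j hj
  rcases Nat.lt_or_ge j (m - 1) with h1 | h1
  · refine hlast.old j h1 ?_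
    rw [e]
    exact hc.2.2 _ (by omega) (by omega)
  · have : j = m - 1 := by omega
    subst this
    refine hlast.cur ?_
    rw [e]
    exact hc.2.2 _ (by omega) (by omega)

/-- The tape during the processing of the clause `j`, after `i` variables. -/
noncomputable def tapeC (m n : ℕ) (pos neg : ℕ → Bool) (v : ℕ → Bool) (j i s : ℕ) : Bool := by
  classical
  exact if s + j + 1 < m then false
    else if s + j + 1 < m + i then v (s + j + 1 - m)
    else if s + j + 1 = m + i then decide (∃ i' < i, LitT n pos neg v j i')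
    else if s + j < m + n then v (s + j - m)
    else true

/-- Completeness: from a satisfying assignment to an exact run. -/
theorem run_complete {m n : ℕ} (hn : 0 < n) {pos neg : ℕ → Bool} {v : ℕ → Bool}
    (hv : SatV m n pos neg v) : ∃ c : ℕ → ℕ → Bool, (∀ s < m, c 0 s = false) ∧
    (∀ τ < m * n, (∀ s < m + n, s ≠ opA m n τ → s ≠ opA m n τ + 1 → c (τ + 1) s = c τ s) ∧
      c (τ + 1) (opA m n τ) = c τ (opA m n τ + 1) ∧
      c (τ + 1) (opA m n τ + 1) = (c τ (opA m n τ) || (pos τ && c τ (opA m n τ + 1)) ||
        (neg τ && !c τ (opA m n τ + 1)))) ∧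
    (∀ s, n ≤ s → s < m + n → c (m * n) s = true) := by
  classical
  have hnext : ∀ j < m, ∀ s < m + n, tapeC m n pos neg v j n s = tapeC m n pos neg v (j + 1) 0 s := by
    intro j hj s hs
    unfold tapeC
    by_cases h1 : s + j + 1 < m
    · rw [if_pos h1]
      by_cases h2 : s + (j + 1) + 1 < m
      · rw [if_pos h2]
      · rw [if_neg h2, if_neg (by omega), if_pos (by omega)]
        symm
        rw [decide_eq_false_iff_not]
        rintro ⟨i', hi', -⟩
        omega
    · rw [if_neg h1, if_neg (by omega : ¬ s + (j + 1) + 1 < m),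
        if_neg (by omega : ¬ s + (j + 1) + 1 < m + 0), if_neg (by omega : ¬ s + (j + 1) + 1 = m + 0)]
      by_cases h2 : s + j + 1 < m + n
      · rw [if_pos h2, if_pos (by omega : s + (j + 1) < m + n)]
        congr 1
      · rw [if_neg h2, if_neg (by omega : ¬ s + (j + 1) < m + n)]
        by_cases h3 : s + j + 1 = m + n
        · rw [if_pos h3]
          exact decide_eq_true (hv j hj)
        · rw [if_neg h3, if_neg (by omega)]
  have hdiv : ∀ j i, i < n → (j * n + i) / n = j ∧ (j * n + i) % n = i := by
    intro j i hi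
    constructor
    · rw [Nat.mul_comm, Nat.mul_add_div (by omega), Nat.div_eq_of_lt hi, Nat.add_zero]
    · rw [Nat.mul_comm, Nat.mul_add_mod, Nat.mod_eq_of_lt hi]
  have hval : ∀ j i, i ≤ n → (j < m ∨ i = 0) → ∀ s < m + n,
      tapeC m n pos neg v ((j * n + i) / n) ((j * n + i) % n) s = tapeC m n pos neg v j i s := by
    intro j i hi hj s hs
    rcases Nat.lt_or_ge i n with h1 | h1
    · rw [(hdiv j i h1).1, (hdiv j i h1).2]
    · have : i = n := by omega
      subst this
      have e : j * i + i = (j + 1) * i + 0 := by ring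
      rw [e, (hdiv (j + 1) 0 hn).1, (hdiv (j + 1) 0 hn).2]
      rcases hj with hj | hj
      · exact (hnext j hj s hs).symm
      · omega
  refine ⟨fun τ s => tapeC m n pos neg v (τ / n) (τ % n) s, ?_, ?_, ?_⟩
  · intro s hs
    simp only [Nat.zero_div, Nat.zero_mod]
    unfold tapeC
    by_cases h1 : s + 0 + 1 < m
    · rw [if_pos h1]
    · rw [if_neg h1, if_neg (by omega), if_pos (by omega)]
      rw [decide_eq_false_iff_not]
      rintro ⟨i', hi', -⟩
      omega
  · intro τ hτ
    obtain ⟨j, i, hi, rfl⟩ : ∃ j i, i < n ∧ τ = j * n + i :=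
      ⟨τ / n, τ % n, Nat.mod_lt _ hn, by rw [Nat.mul_comm]; exact (Nat.div_add_mod τ n).symm⟩
    have hjm : j < m := by
      by_contra hc
      have : m * n ≤ j * n := Nat.mul_le_mul_right _ (by omega)
      omega
    obtain ⟨jj, hjj⟩ : ∃ jj, jj + 1 + j = m := ⟨m - 1 - j, by omega⟩
    rw [opA_eq hi hjj]
    have e1 : ∀ s < m + n, tapeC m n pos neg v ((j * n + i + 1) / n) ((j * n + i + 1) % n) s =
        tapeC m n pos neg v j (i + 1) s := fun s hs =>
      hval j (i + 1) (by omega) (Or.inl hjm) s hs
    have e2 : ∀ s < m + n, tapeC m n pos neg v ((j * n + i) / n) ((j * n + i) % n) s =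
        tapeC m n pos neg v j i s := fun s hs => hval j i (by omega) (Or.inl hjm) s hs
    refine ⟨?_, ?_, ?_⟩
    · intro s hs h1 h2
      simp only
      rw [e1 s hs, e2 s hs]
      unfold tapeC
      by_cases h3 : s + j + 1 < m
      · rw [if_pos h3, if_pos h3]
      · rw [if_neg h3, if_neg h3]
        by_cases h4 : s + j + 1 < m + i
        · rw [if_pos h4, if_pos (by omega)]
        · rw [if_neg h4, if_neg (by omega : ¬ s + j + 1 = m + i),
            if_neg (by omega : ¬ s + j + 1 < m + (i + 1)),
            if_neg (by omega : ¬ s + j + 1 = m + (i + 1))]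
    · simp only
      rw [e1 _ (by omega), e2 _ (by omega)]
      unfold tapeC
      rw [if_neg (by omega), if_pos (by omega), if_neg (by omega), if_neg (by omega),
        if_neg (by omega), if_pos (by omega)]
      congr 1
      omega
    · simp only
      rw [e1 _ (by omega), e2 _ (by omega), e2 _ (by omega)]
      have h5 : tapeC m n pos neg v j i (jj + i + 1) = v i := by
        unfold tapeC
        rw [if_neg (by omega), if_neg (by omega), if_neg (by omega), if_pos (by omega)]
        congr 1
        omega
      have h6 : tapeC m n pos neg v j i (jj + i) = decide (∃ i' < i, LitT n pos neg v j i') := by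
        unfold tapeC
        rw [if_neg (by omega), if_neg (by omega), if_pos (by omega)]
      have h7 : tapeC m n pos neg v j (i + 1) (jj + i + 1) =
          decide (∃ i' < i + 1, LitT n pos neg v j i') := by
        unfold tapeC
        rw [if_neg (by omega), if_neg (by omega), if_pos (by omega)]
      rw [h5, h6, h7, Bool.eq_iff_iff]
      simp only [decide_eq_true_eq, Bool.or_eq_true, Bool.and_eq_true, Bool.not_eq_true']
      constructor
      · rintro ⟨i', hi', hl⟩
        rcases Nat.lt_or_ge i' i with h8 | h8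
        · exact Or.inl (Or.inl ⟨i', h8, hl⟩)
        · have : i' = i := by omega
          subst this
          rcases hl with hl | hl
          · exact Or.inl (Or.inr hl)
          · exact Or.inr hl
      · rintro ((⟨i', hi', hl⟩ | hl) | hl)
        · exact ⟨i', by omega, hl⟩
        · exact ⟨i, by omega, Or.inl hl⟩
        · exact ⟨i, by omega, Or.inr hl⟩
  · intro s hs1 hs2
    simp only
    have := hval m 0 (by omega) (Or.inr rfl) s hs2
    rw [Nat.add_zero] at this
    rw [this]
    unfold tapeC
    rw [if_neg (by omega), if_neg (by omega), if_neg (by omega), if_neg (by omega)]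

end Pool.Agent.X249.NF
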