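import Pool.Agent.X249.NF.Comb
import Pool.Agent.X249.NF.Gadget
import Pool.Agent.X249.NF.Tape

/-!
# The ordered graph of a tape computation
-/

set_option autoImplicit false

namespace Pool.Agent.X249.NF

/-- The vertex in the layer `l`, in the slot `s`, with offset `o`. -/
def pst (N l s o : ℕ) : ℕ := (l * N + s) * 5 + o

theorem pst_dec {N l s o : ℕ} (hs : s < N) (ho : o < 5) :
    pst N l s o / 5 / N = l ∧ pst N l s o / 5 % N = s ∧ pst N l s o % 5 = o := by
  have h1 : pst N l s o / 5 = l * N + s := by unfold pst; omega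
  have h2 : pst N l s o % 5 = o := by unfold pst; omega
  refine ⟨?_, ?_, h2⟩
  · rw [h1, Nat.mul_comm, Nat.mul_add_div (by omega), Nat.div_eq_of_lt hs, Nat.add_zero]
  · rw [h1, Nat.mul_comm, Nat.mul_add_mod, Nat.mod_eq_of_lt hs]

theorem pst_inj {N l s o l' s' o' : ℕ} (hs : s < N) (ho : o < 5) (hs' : s' < N) (ho' : o' < 5)
    (h : pst N l s o = pst N l' s' o') : l = l' ∧ s = s' ∧ o = o' := by
  obtain ⟨h1, h2, h3⟩ := pst_dec (l := l) hs ho
  obtain ⟨h4, h5, h6⟩ := pst_dec (l := l') hs' ho'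
  rw [h] at h1 h2 h3
  exact ⟨h1.symm.trans h4, h2.symm.trans h5, h3.symm.trans h6⟩

theorem pst_lt {N l s o o' : ℕ} (h : o < o') : pst N l s o < pst N l s o' := by
  unfold pst; omega

theorem pst_lt_slot {N l s s' o o' : ℕ} (h : s < s') (ho : o < 5) :
    pst N l s o < pst N l s' o' := by
  unfold pst; omega

theorem pst_lt_layer {N l l' s s' o o' : ℕ} (h : l < l') (hs : s < N) (ho : o < 5) :
    pst N l s o < pst N l' s' o' := by
  have h1 : (l + 1) * N ≤ l' * N := Nat.mul_le_mul_right _ h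
  rw [Nat.add_mul, Nat.one_mul] at h1
  unfold pst; omega

/-- The vertices. -/
def val (m n l s o : ℕ) : Bool :=
  if l = 0 ∨ l = 3 * (m * n) + 2 then decide (o = 0)
  else if (l - 1) % 3 = 0 then decide (o < 2)
  else if s = opA m n ((l - 1) / 3) then true
  else if s = opA m n ((l - 1) / 3) + 1 then false
  else decide (o < 2)

/-- The number of a vertex of a pair of cells. -/
def idx (a s o : ℕ) : ℕ := if s = a then o else o + 2

/-- The edges from a layer to the next one. -/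
def edg (m n : ℕ) (pos neg : ℕ → Bool) (l s o s' o' : ℕ) : Bool :=
  if l = 0 then decide (s' = s ∧ (o' = 1 ∨ (o' = 0 ∧ m ≤ s)))
  else if l = 3 * (m * n) + 1 then decide (s' = s ∧ (o = 1 ∨ (o = 0 ∧ s < n)))
  else if s = opA m n ((l - 1) / 3) ∨ s = opA m n ((l - 1) / 3) + 1 then
    (decide (s' = opA m n ((l - 1) / 3) ∨ s' = opA m n ((l - 1) / 3) + 1) &&
      (if (l - 1) % 3 = 0 then
        decide ((idx (opA m n ((l - 1) / 3)) s o, o') ∈ g0 (pos ((l - 1) / 3)) (neg ((l - 1) / 3)))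
      else if (l - 1) % 3 = 1 then decide ((o, o') ∈ g1)
      else decide ((o, idx (opA m n ((l - 1) / 3)) s' o') ∈ g2)))
  else decide (s' = s ∧ ((o = 0 ∧ o' = 1) ∨ (o = 1 ∧ o' = 0)))

/-- All vertices, in increasing order. -/
def verts (m n : ℕ) : List ℕ :=
  (List.range ((3 * (m * n) + 3) * (m + n) * 5)).filter
    (fun p => val m n (p / 5 / (m + n)) (p / 5 % (m + n)) (p % 5))

/-- All edges. -/
def edges (m n : ℕ) (pos neg : ℕ → Bool) : List (ℕ × ℕ) :=
  (verts m n ×ˢ verts m n).filter (fun e =>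
    decide (e.2 / 5 / (m + n) = e.1 / 5 / (m + n) + 1) &&
    edg m n pos neg (e.1 / 5 / (m + n)) (e.1 / 5 % (m + n)) (e.1 % 5) (e.2 / 5 % (m + n)) (e.2 % 5))

theorem verts_nodup (m n : ℕ) : (verts m n).Nodup := List.nodup_range.filter _

theorem verts_sorted (m n : ℕ) : (verts m n).Pairwise (· < ·) :=
  List.pairwise_lt_range.filter _

theorem edges_nodup (m n : ℕ) (pos neg : ℕ → Bool) : (edges m n pos neg).Nodup :=
  ((verts_nodup m n).product (verts_nodup m n)).filter _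

theorem mem_verts {m n l s o : ℕ} (hl : l < 3 * (m * n) + 3) (hs : s < m + n) (ho : o < 5) :
    pst (m + n) l s o ∈ verts m n ↔ val m n l s o = true := by
  obtain ⟨h1, h2, h3⟩ := pst_dec (l := l) hs ho
  rw [verts, List.mem_filter, h1, h2, h3, List.mem_range]
  have h4 : (l + 1) * (m + n) ≤ (3 * (m * n) + 3) * (m + n) := Nat.mul_le_mul_right _ hl
  rw [Nat.add_mul, Nat.one_mul] at h4
  have h5 : pst (m + n) l s o < (3 * (m * n) + 3) * (m + n) * 5 := by
    unfold pst; omega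
  exact and_iff_right h5

theorem of_mem_verts {m n p : ℕ} (hN : 0 < m + n) (hp : p ∈ verts m n) :
    ∃ l s o, l < 3 * (m * n) + 3 ∧ s < m + n ∧ o < 5 ∧ p = pst (m + n) l s o ∧
      val m n l s o = true := by
  rw [verts, List.mem_filter, List.mem_range] at hp
  refine ⟨p / 5 / (m + n), p / 5 % (m + n), p % 5, ?_, Nat.mod_lt _ hN, Nat.mod_lt _ (by omega),
    ?_, hp.2⟩
  · rw [Nat.div_lt_iff_lt_mul hN, Nat.div_lt_iff_lt_mul (by omega)]
    exact hp.1
  · unfold pst
    have h1 := Nat.div_add_mod (p / 5) (m + n)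
    have h2 : p / 5 / (m + n) * (m + n) + p / 5 % (m + n) = p / 5 := by
      rw [Nat.mul_comm]; exact h1
    rw [h2]
    omega

theorem mem_edges {m n : ℕ} {pos neg : ℕ → Bool} {l s o l' s' o' : ℕ}
    (hl : l < 3 * (m * n) + 3) (hs : s < m + n) (ho : o < 5)
    (hl' : l' < 3 * (m * n) + 3) (hs' : s' < m + n) (ho' : o' < 5) :
    (pst (m + n) l s o, pst (m + n) l' s' o') ∈ edges m n pos neg ↔
      (val m n l s o = true ∧ val m n l' s' o' = true) ∧ l' = l + 1 ∧
        edg m n pos neg l s o s' o' = true := by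
  obtain ⟨h1, h2, h3⟩ := pst_dec (l := l) hs ho
  obtain ⟨h4, h5, h6⟩ := pst_dec (l := l') hs' ho'
  rw [edges, List.mem_filter, List.mem_product]
  simp only [h1, h2, h3, h4, h5, h6, Bool.and_eq_true, decide_eq_true_eq]
  rw [mem_verts hl hs ho, mem_verts hl' hs' ho']

/-- The edges leaving a vertex. -/
theorem edge_out {m n : ℕ} (hN : 0 < m + n) {pos neg : ℕ → Bool} {l s o q : ℕ} (hs : s < m + n)
    (ho : o < 5) (h : (pst (m + n) l s o, q) ∈ edges m n pos neg) :
    l < 3 * (m * n) + 2 ∧ ∃ s' o', s' < m + n ∧ o' < 5 ∧ q = pst (m + n) (l + 1) s' o' ∧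
      val m n l s o = true ∧ val m n (l + 1) s' o' = true ∧ edg m n pos neg l s o s' o' = true := by
  have h1 := h
  rw [edges, List.mem_filter, List.mem_product] at h1
  obtain ⟨l0, s0, o0, hl0, hs0, ho0, he0, -⟩ := of_mem_verts hN h1.1.1
  obtain ⟨l', s', o', hl', hs', ho', rfl, -⟩ := of_mem_verts hN h1.1.2
  obtain ⟨rfl, rfl, rfl⟩ := pst_inj hs ho hs0 ho0 he0
  rw [mem_edges hl0 hs ho hl' hs' ho'] at h
  obtain ⟨⟨h2, h3⟩, rfl, h4⟩ := h
  exact ⟨by omega, s', o', hs', ho', rfl, h2, h3, h4⟩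

/-- The edges entering a vertex. -/
theorem edge_in {m n : ℕ} (hN : 0 < m + n) {pos neg : ℕ → Bool} {l s o p : ℕ} (hs : s < m + n)
    (ho : o < 5) (h : (p, pst (m + n) l s o) ∈ edges m n pos neg) :
    ∃ l' s' o', l = l' + 1 ∧ s' < m + n ∧ o' < 5 ∧ p = pst (m + n) l' s' o' ∧
      val m n l' s' o' = true ∧ edg m n pos neg l' s' o' s o = true := by
  have h1 := h
  rw [edges, List.mem_filter, List.mem_product] at h1
  obtain ⟨l0, s0, o0, hl0, hs0, ho0, he0, -⟩ := of_mem_verts hN h1.1.2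
  obtain ⟨l', s', o', hl', hs', ho', rfl, -⟩ := of_mem_verts hN h1.1.1
  obtain ⟨rfl, rfl, rfl⟩ := pst_inj hs ho hs0 ho0 he0
  rw [mem_edges hl' hs' ho' hl0 hs ho] at h
  obtain ⟨⟨h2, h3⟩, rfl, h4⟩ := h
  exact ⟨l', s', o', rfl, hs', ho', rfl, h2, h4⟩

theorem edges_lt {m n : ℕ} (hN : 0 < m + n) {pos neg : ℕ → Bool} :
    ∀ e ∈ edges m n pos neg, e.1 < e.2 := by
  rintro ⟨p, q⟩ h
  have h1 := h
  rw [edges, List.mem_filter, List.mem_product] at h1
  obtain ⟨l, s, o, hl, hs, ho, he, -⟩ := of_mem_verts hN h1.1.1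
  obtain rfl : p = pst (m + n) l s o := he
  obtain ⟨-, s', o', hs', ho', rfl, -⟩ := edge_out hN hs ho h
  exact pst_lt_layer (by omega) hs ho

/-! ### Values of the defining functions -/

theorem opA_lt {m n τ : ℕ} (hτ : τ < m * n) : opA m n τ + 1 < m + n := by
  have hn : 0 < n := by
    rcases Nat.eq_zero_or_pos n with h | h
    · subst h; simp at hτ
    · exact h
  have hm : 0 < m := by
    rcases Nat.eq_zero_or_pos m with h | h
    · subst h; simp at hτ
    · exact h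
  have h1 : τ % n < n := Nat.mod_lt _ hn
  unfold opA
  generalize τ / n = q at *
  generalize τ % n = r at *
  omega

theorem val_zero (m n s o : ℕ) : val m n 0 s o = decide (o = 0) := by simp [val]

theorem val_last (m n s o : ℕ) : val m n (3 * (m * n) + 2) s o = decide (o = 0) := by simp [val]

theorem val_can {m n τ : ℕ} (s o : ℕ) : val m n (3 * τ + 1) s o = decide (o < 2) ∨ 3 * τ + 1 = 3 * (m * n) + 2 := by
  by_cases h : 3 * τ + 1 = 3 * (m * n) + 2
  · exact Or.inr h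
  · left
    unfold val
    rw [if_neg (by omega), if_pos (by omega)]

theorem val_can' (m n τ s o : ℕ) : val m n (3 * τ + 1) s o = decide (o < 2) := by
  unfold val
  rw [if_neg (by omega), if_pos (by omega)]

theorem val_mid {m n τ u : ℕ} (hτ : τ < m * n) (hu : u = 1 ∨ u = 2) (s o : ℕ) :
    val m n (3 * τ + 1 + u) s o = if s = opA m n τ then true else if s = opA m n τ + 1 then false
      else decide (o < 2) := by
  have h1 : (3 * τ + 1 + u - 1) / 3 = τ := by omega
  unfold val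
  rw [if_neg (by omega), if_neg (by omega), h1]

theorem edg_zero (m n : ℕ) (pos neg : ℕ → Bool) (s o s' o' : ℕ) :
    edg m n pos neg 0 s o s' o' = true ↔ s' = s ∧ (o' = 1 ∨ (o' = 0 ∧ m ≤ s)) := by
  simp [edg]

theorem edg_last (m n : ℕ) (pos neg : ℕ → Bool) (s o s' o' : ℕ) :
    edg m n pos neg (3 * (m * n) + 1) s o s' o' = true ↔ s' = s ∧ (o = 1 ∨ (o = 0 ∧ s < n)) := by
  simp [edg]

theorem edg_copy {m n τ u : ℕ} (hτ : τ < m * n) (hu : u < 3) (pos neg : ℕ → Bool) {s : ℕ}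
    (hs1 : s ≠ opA m n τ) (hs2 : s ≠ opA m n τ + 1) (o s' o' : ℕ) :
    edg m n pos neg (3 * τ + 1 + u) s o s' o' = true ↔
      s' = s ∧ ((o = 0 ∧ o' = 1) ∨ (o = 1 ∧ o' = 0)) := by
  have h1 : (3 * τ + 1 + u - 1) / 3 = τ := by omega
  unfold edg
  rw [if_neg (by omega), if_neg (by omega), h1, if_neg (by omega), decide_eq_true_eq]

theorem edg_zeroPass {m n τ : ℕ} (hτ : τ < m * n) (pos neg : ℕ → Bool) {s : ℕ}
    (hs : s = opA m n τ ∨ s = opA m n τ + 1) (o s' o' : ℕ) :
    edg m n pos neg (3 * τ + 1) s o s' o' = true ↔ (s' = opA m n τ ∨ s' = opA m n τ + 1) ∧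
      (idx (opA m n τ) s o, o') ∈ g0 (pos τ) (neg τ) := by
  have h1 : (3 * τ + 1 - 1) / 3 = τ := by omega
  unfold edg
  rw [if_neg (by omega), if_neg (by omega), h1, if_pos hs, if_pos (by omega), Bool.and_eq_true,
    decide_eq_true_eq, decide_eq_true_eq]

theorem edg_onePass {m n τ : ℕ} (hτ : τ < m * n) (pos neg : ℕ → Bool) {s : ℕ}
    (hs : s = opA m n τ ∨ s = opA m n τ + 1) (o s' o' : ℕ) :
    edg m n pos neg (3 * τ + 1 + 1) s o s' o' = true ↔ (s' = opA m n τ ∨ s' = opA m n τ + 1) ∧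
      (o, o') ∈ g1 := by
  have h1 : (3 * τ + 1 + 1 - 1) / 3 = τ := by omega
  unfold edg
  rw [if_neg (by omega), if_neg (by omega), h1, if_pos hs, if_neg (by omega), if_pos (by omega),
    Bool.and_eq_true, decide_eq_true_eq, decide_eq_true_eq]

theorem edg_twoPass {m n τ : ℕ} (hτ : τ < m * n) (pos neg : ℕ → Bool) {s : ℕ}
    (hs : s = opA m n τ ∨ s = opA m n τ + 1) (o s' o' : ℕ) :
    edg m n pos neg (3 * τ + 1 + 2) s o s' o' = true ↔ (s' = opA m n τ ∨ s' = opA m n τ + 1) ∧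
      (o, idx (opA m n τ) s' o') ∈ g2 := by
  have h1 : (3 * τ + 1 + 2 - 1) / 3 = τ := by omega
  unfold edg
  rw [if_neg (by omega), if_neg (by omega), h1, if_pos hs, if_neg (by omega), if_neg (by omega),
    Bool.and_eq_true, decide_eq_true_eq, decide_eq_true_eq]

end Pool.Agent.X249.NF
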