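import Pool.Agent.X249.NF.Sound
import Pool.Agent.X249.NF.Complete
import Pool.Agent.X249.IS
import Pool.Agent.NPC.Sat2

/-!
# The 2-interval pattern problem is NP-complete: the reduction
-/

set_option autoImplicit false

namespace Pool.Agent.X249.NF

open Pool.Agent.NPC Pool.Agent.X249

abbrev C3 : Type := Lit ℕ × Lit ℕ × Lit ℕ

/-- The literal `(b, i)` is in the clause `j`, where `τ = 3 m j + i`. -/
def flag (b : Bool) (φ : List C3) (τ : ℕ) : Bool :=
  decide ((φ.getD (τ / (3 * φ.length)) ((true, 0), (true, 0), (true, 0))).1 =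
      (b, τ % (3 * φ.length)) ∨
    (φ.getD (τ / (3 * φ.length)) ((true, 0), (true, 0), (true, 0))).2.1 =
      (b, τ % (3 * φ.length)) ∨
    (φ.getD (τ / (3 * φ.length)) ((true, 0), (true, 0), (true, 0))).2.2 =
      (b, τ % (3 * φ.length)))

@[fun_prop]
theorem poly_flag {α : Type} [TEnc α] {b : α → Bool} {f : α → List C3} {g : α → ℕ} (hb : Poly b)
    (hf : Poly f) (hg : Poly g) : Poly (fun a => flag (b a) (f a) (g a)) := by
  unfold flag
  fun_prop

@[fun_prop]
theorem poly_opA {α : Type} [TEnc α] {f g h : α → ℕ} (hf : Poly f) (hg : Poly g) (hh : Poly h) :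
    Poly (fun a => opA (f a) (g a) (h a)) := by
  unfold opA
  fun_prop

@[fun_prop]
theorem poly_val {α : Type} [TEnc α] {f g h i j : α → ℕ} (hf : Poly f) (hg : Poly g) (hh : Poly h)
    (hi : Poly i) (hj : Poly j) : Poly (fun a => val (f a) (g a) (h a) (i a) (j a)) := by
  unfold val
  fun_prop

@[fun_prop]
theorem poly_idx {α : Type} [TEnc α] {f g h : α → ℕ} (hf : Poly f) (hg : Poly g) (hh : Poly h) :
    Poly (fun a => idx (f a) (g a) (h a)) := by
  unfold idx
  fun_prop

@[fun_prop]
theorem poly_g0 {α : Type} [TEnc α] {f g : α → Bool} (hf : Poly f) (hg : Poly g) :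
    Poly (fun a => g0 (f a) (g a)) := by
  unfold g0
  fun_prop

/-- The edge relation of the graph of a formula. -/
def edgF (φ : List C3) (l s o s' o' : ℕ) : Bool :=
  edg φ.length (3 * φ.length) (flag true φ) (flag false φ) l s o s' o'

@[fun_prop]
theorem poly_edgF {α : Type} [TEnc α] {φ : α → List C3} {l s o s' o' : α → ℕ} (hφ : Poly φ)
    (hl : Poly l) (hs : Poly s) (ho : Poly o) (hs' : Poly s') (ho' : Poly o') :
    Poly (fun a => edgF (φ a) (l a) (s a) (o a) (s' a) (o' a)) := by
  unfold edgF edg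
  fun_prop

@[fun_prop]
theorem poly_verts {α : Type} [TEnc α] {φ : α → List C3} (hφ : Poly φ) :
    Poly (fun a => verts (φ a).length (3 * (φ a).length)) := by
  have h : Poly (fun a => List.range ((3 * ((φ a).length * (3 * (φ a).length)) + 3) *
      ((φ a).length + 3 * (φ a).length) * 5)) :=
    UPoly.range (UPoly.mul (UPoly.mul (UPoly.add (UPoly.mul (UPoly.const _) (UPoly.mul
      (UPoly.length hφ) (UPoly.mul (UPoly.const _) (UPoly.length hφ)))) (UPoly.const _))
      (UPoly.add (UPoly.length hφ) (UPoly.mul (UPoly.const _) (UPoly.length hφ)))) (UPoly.const _))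
  unfold verts
  fun_prop

/-- The instance. -/
def inst (φ : List C3) : List TwoInt × ℕ :=
  ((edges φ.length (3 * φ.length) (flag true φ) (flag false φ)).map twoInt,
    ((verts φ.length (3 * φ.length)).length + 1) / 2)

theorem edges_eq (φ : List C3) : edges φ.length (3 * φ.length) (flag true φ) (flag false φ) =
    (verts φ.length (3 * φ.length) ×ˢ verts φ.length (3 * φ.length)).filter (fun e =>
      decide (e.2 / 5 / (φ.length + 3 * φ.length) = e.1 / 5 / (φ.length + 3 * φ.length) + 1) &&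
      edgF φ (e.1 / 5 / (φ.length + 3 * φ.length)) (e.1 / 5 % (φ.length + 3 * φ.length)) (e.1 % 5)
        (e.2 / 5 % (φ.length + 3 * φ.length)) (e.2 % 5)) := rfl

theorem poly_inst : Poly inst := by
  unfold inst twoInt
  simp only [edges_eq]
  fun_prop

theorem flag_iff {φ : List C3} {b : Bool} {j i : ℕ} (hj : j < φ.length) (hi : i < 3 * φ.length) :
    flag b φ (j * (3 * φ.length) + i) = true ↔ φ[j].1 = (b, i) ∨ φ[j].2.1 = (b, i) ∨
      φ[j].2.2 = (b, i) := by
  have h1 : (j * (3 * φ.length) + i) / (3 * φ.length) = j := by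
    rw [Nat.mul_comm, Nat.mul_add_div (by omega), Nat.div_eq_of_lt hi, Nat.add_zero]
  have h2 : (j * (3 * φ.length) + i) % (3 * φ.length) = i := by
    rw [Nat.mul_comm, Nat.mul_add_mod, Nat.mod_eq_of_lt hi]
  rw [flag, h1, h2, decide_eq_true_eq, List.getD_eq_getElem _ _ hj]

theorem sat_iff {φ : List C3} (hb : Bounded3 φ) :
    SAT3 φ ↔ ∃ v, SatV φ.length (3 * φ.length) (flag true φ) (flag false φ) v := by
  constructor
  · rintro ⟨v, hv⟩
    refine ⟨v, fun j hj => ?_⟩
    have hmem : φ[j] ∈ φ := List.getElem_mem hj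
    have h1 := hb _ hmem
    have key : ∀ p : Bool × ℕ, p.2 < 3 * φ.length → v p.2 = p.1 →
        (φ[j].1 = p ∨ φ[j].2.1 = p ∨ φ[j].2.2 = p) → ∃ i < 3 * φ.length,
          LitT (3 * φ.length) (flag true φ) (flag false φ) v j i := by
      rintro ⟨b, i⟩ hi hvi hp
      refine ⟨i, hi, ?_⟩
      cases b
      · exact Or.inr ⟨(flag_iff hj hi).2 hp, hvi⟩
      · exact Or.inl ⟨(flag_iff hj hi).2 hp, hvi⟩
    rcases hv _ hmem with h2 | h2 | h2
    · exact key _ h1.1 h2 (Or.inl rfl)
    · exact key _ h1.2.1 h2 (Or.inr (Or.inl rfl))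
    · exact key _ h1.2.2 h2 (Or.inr (Or.inr rfl))
  · rintro ⟨v, hv⟩
    refine ⟨v, fun c hc => ?_⟩
    obtain ⟨j, hj, rfl⟩ := List.getElem_of_mem hc
    obtain ⟨i, hi, h⟩ := hv j hj
    rcases h with ⟨h, hvi⟩ | ⟨h, hvi⟩
    · rcases (flag_iff hj hi).1 h with h | h | h
      · left; rw [h]; exact hvi
      · right; left; rw [h]; exact hvi
      · right; right; rw [h]; exact hvi
    · rcases (flag_iff hj hi).1 h with h | h | h
      · left; rw [h]; exact hvi
      · right; left; rw [h]; exact hvi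
      · right; right; rw [h]; exact hvi

/-- The reduction is correct. -/
theorem inst_iff {φ : List C3} (hb : Bounded3 φ) (hne : φ ≠ []) : SAT3 φ ↔ Pattern (inst φ) := by
  have hm : 0 < φ.length := List.length_pos_iff.2 hne
  have hN : 0 < φ.length + 3 * φ.length := by omega
  rw [sat_iff hb, inst, pattern_graph (edges_nodup _ _ _ _) (edges_lt hN)]
  constructor
  · rintro ⟨v, hv⟩
    obtain ⟨c, h0, h1, h2⟩ := run_complete (by omega) hv
    obtain ⟨M, hM1, hM2, hM3⟩ := complete hN h0 h1 h2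
    exact ⟨M, hM1, hM2, by omega⟩
  · rintro ⟨M, hM1, hM2, hM3⟩
    obtain ⟨c, hc⟩ := sound hm (by omega) hM1 hM2 (by omega)
    exact ⟨_, run_sound hm hc⟩

theorem hard_pattern : HardI Pattern :=
  (hardPr_SAT3b.trans (Pr' := fun _ => True) poly_inst (fun _ _ => trivial)
    (fun _ h => inst_iff h.2.1 h.2.2)).toHardI

end Pool.Agent.X249.NF
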