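import Pool.Agent.X249.NF.Geo

/-!
# From a perfect matching to a run
-/

set_option autoImplicit false

namespace Pool.Agent.X249.NF

theorem Loc.congr {e : List (ℕ × ℕ)} {a b : ℕ} {F F' G G' : ℕ → Bool}
    (h : Loc e a b F G) (hF : ∀ i < a, F i = F' i) (hG : ∀ j < b, G j = G' j) : Loc e a b F' G' := by
  unfold Loc at *
  have h1 : (List.range a).filter F' = (List.range a).filter F :=
    List.filter_congr (fun i hi => (hF i (List.mem_range.1 hi)).symm)
  have h2 : (List.range b).filter (fun j => !G' j) = (List.range b).filter (fun j => !G j) :=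
    List.filter_congr (fun i hi => by rw [hG i (List.mem_range.1 hi)])
  rw [h1, h2]
  exact h

theorem pairwise_map_range {a : ℕ} {x : ℕ → ℕ} (hx : ∀ i j, i < j → j < a → x i < x j) :
    ((List.range a).map x).Pairwise (· < ·) := by
  rw [List.pairwise_map]
  refine List.Pairwise.imp_of_mem ?_ List.pairwise_lt_range
  intro i j _ hj hij
  exact hx i j hij (List.mem_range.1 hj)

/-- The local relation given by a perfect matching. -/
theorem loc_of_match {E : List (ℕ × ℕ)} {V : List ℕ} {M : Finset (ℕ × ℕ)}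
    (hME : ∀ e ∈ M, e ∈ E) (hM : ∀ e ∈ M, ∀ f ∈ M, e ≠ f → CompE e f)
    (hcov : ∀ p ∈ V, (p ∈ rights M ↔ p ∉ lefts M)) {a b : ℕ} {x y : ℕ → ℕ} {e : List (ℕ × ℕ)}
    (hx : ∀ i j, i < j → j < a → x i < x j) (hy : ∀ i j, i < j → j < b → y i < y j)
    (hyV : ∀ j < b, y j ∈ V)
    (h1 : ∀ i < a, ∀ q, (x i, q) ∈ E → ∃ j < b, q = y j ∧ (i, j) ∈ e)
    (h2 : ∀ j < b, ∀ p, (p, y j) ∈ E → ∃ i < a, p = x i) :
    Loc e a b (fun i => decide (x i ∈ lefts M)) (fun j => decide (y j ∈ lefts M)) := by
  have h := local_match hM (pairwise_map_range hx) (pairwise_map_range hy) ?_ ?_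
  · rw [List.filter_map, List.filter_map, List.forall₂_map_left_iff, List.forall₂_map_right_iff] at h
    have h3 : (List.range b).filter ((fun q => decide (q ∈ rights M)) ∘ y) =
        (List.range b).filter (fun j => !decide (y j ∈ lefts M)) := by
      apply List.filter_congr
      intro j hj
      simp only [Function.comp]
      rw [Bool.eq_iff_iff, decide_eq_true_eq, Bool.not_eq_true', decide_eq_false_iff_not]
      exact hcov _ (hyV j (List.mem_range.1 hj))
    rw [h3] at h
    unfold Loc
    have h4 : (List.range a).filter ((fun p => decide (p ∈ lefts M)) ∘ x) =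
      (List.range a).filter (fun i => decide (x i ∈ lefts M)) := rfl
    rw [h4] at h
    rw [List.forall₂_iff_zip] at h ⊢
    refine ⟨h.1, ?_⟩
    intro i j hij
    have h5 := List.of_mem_zip hij
    have hi := List.mem_range.1 (List.mem_filter.1 h5.1).1
    have hj := List.mem_range.1 (List.mem_filter.1 h5.2).1
    obtain ⟨j', hj', he, hm⟩ := h1 i hi _ (hME _ (h.2 hij))
    have : j = j' := by
      rcases Nat.lt_trichotomy j j' with h6 | h6 | h6
      · have := hy j j' h6 hj'; omega
      · exact h6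
      · have := hy j' j h6 hj; omega
    rw [this]
    exact hm
  · intro e he hX
    obtain ⟨i, hi, hie⟩ := List.mem_map.1 hX
    obtain ⟨j, hj, hj2, -⟩ := h1 i (List.mem_range.1 hi) e.2 (by rw [hie]; exact hME _ he)
    exact List.mem_map.2 ⟨j, List.mem_range.2 hj, hj2.symm⟩
  · intro e he hY
    obtain ⟨j, hj, hje⟩ := List.mem_map.1 hY
    obtain ⟨i, hi, hi2⟩ := h2 j (List.mem_range.1 hj) e.1 (by rw [hje]; exact hME _ he)
    exact List.mem_map.2 ⟨i, List.mem_range.2 hi, hi2.symm⟩

theorem start_zero : ∀ b0 b1 : Bool, Loc [(0, 1)] 1 2 (gb [true]) (gb [b0, b1]) →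
    b0 = true ∧ b1 = false := by decide

theorem start_any : ∀ b0 b1 : Bool, Loc [(0, 0), (0, 1)] 1 2 (gb [true]) (gb [b0, b1]) →
    b0 = !b1 := by decide

theorem copy_sound : ∀ v b0 b1 : Bool, Loc [(0, 1), (1, 0)] 2 2 (gb [!v, v]) (gb [b0, b1]) →
    b0 = !v ∧ b1 = v := by decide

theorem end_sound : ∀ v : Bool, Loc [(1, 0)] 2 1 (gb [!v, v]) (gb [false]) → v = true := by decide

theorem lt_five_cases {i : ℕ} (h : i < 5) : i = 0 ∨ i = 1 ∨ i = 2 ∨ i = 3 ∨ i = 4 := by omega

/-- The vertices of a pair of cells. -/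
def pc (N l a i : ℕ) : ℕ := if i < 2 then pst N l a i else pst N l (a + 1) (i - 2)

theorem pc_mono {N l a : ℕ} : ∀ i j, i < j → j < 4 → pc N l a i < pc N l a j := by
  intro i j hij hj
  unfold pc
  by_cases h1 : j < 2
  · rw [if_pos (by omega), if_pos h1]
    exact pst_lt hij
  · rw [if_neg h1]
    by_cases h2 : i < 2
    · rw [if_pos h2]
      exact pst_lt_slot (by omega) (by omega)
    · rw [if_neg h2]
      exact pst_lt (by omega)

theorem sound {m n : ℕ} (hm : 0 < m) (hn : 0 < n) {pos neg : ℕ → Bool} {M : Finset (ℕ × ℕ)}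
    (hME : ∀ e ∈ M, e ∈ edges m n pos neg) (hM : ∀ e ∈ M, ∀ f ∈ M, e ≠ f → CompE e f)
    (hk : (verts m n).length ≤ 2 * M.card) : ∃ c, Run m n pos neg c := by
  have hN : 0 < m + n := by omega
  have hcov := covers hM (fun e he => edges_lt hN e (hME e he)) (V := verts m n) (by
    intro e he
    have := hME e he
    rw [edges, List.mem_filter, List.mem_product] at this
    exact this.1) hk
  obtain ⟨L, hL⟩ : ∃ L : ℕ → ℕ → ℕ → Bool, ∀ l s o, L l s o =
    decide (pst (m + n) l s o ∈ lefts M) := ⟨_, fun _ _ _ => rfl⟩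
  -- the first layer
  have hfirst : ∀ s < m + n, L 0 s 0 = true := by
    intro s hs
    rw [hL, decide_eq_true_eq]
    by_contra hc
    have hv : pst (m + n) 0 s 0 ∈ verts m n :=
      (mem_verts (by omega) hs (by omega)).2 (by rw [val_zero]; rfl)
    obtain ⟨p, hp⟩ := mem_rights.1 ((hcov _ hv).2 hc)
    obtain ⟨l', -, -, h0, -⟩ := edge_in hN hs (by omega) (hME _ hp)
    omega
  have hlast : ∀ s < m + n, L (3 * (m * n) + 2) s 0 = false := by
    intro s hs
    rw [hL, decide_eq_false_iff_not]
    intro hc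
    obtain ⟨q, hq⟩ := mem_lefts.1 hc
    have := (edge_out hN hs (by omega) (hME _ hq)).1
    omega
  have hstart : ∀ s < m + n, L 1 s 0 = !L 1 s 1 ∧ (s < m → L 1 s 1 = false) := by
    intro s hs
    have hyV : ∀ j < 2, pst (m + n) 1 s j ∈ verts m n := fun j hj =>
      (mem_verts (by omega) hs (by omega)).2 (by rw [show (1 : ℕ) = 3 * 0 + 1 from rfl, val_can']; simpa using hj)
    by_cases hsm : s < m
    · have h := loc_of_match hME hM hcov (a := 1) (b := 2) (x := fun i => pst (m + n) 0 s i)
        (y := fun j => pst (m + n) 1 s j) (e := [(0, 1)]) (fun i j h _ => pst_lt h)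
        (fun i j h _ => pst_lt h) hyV ?_ ?_
      · have h' : Loc [(0, 1)] 1 2 (gb [true]) (gb [L 1 s 0, L 1 s 1]) := h.congr (by
          intro i hi
          have : i = 0 := by omega
          subst this
          rw [← hL]
          exact hfirst s hs) (by
          intro j hj
          rw [← hL]
          rcases (by omega : j = 0 ∨ j = 1) with rfl | rfl <;> rfl)
        have := start_zero _ _ h'
        exact ⟨by rw [this.1, this.2]; rfl, fun _ => this.2⟩
      · intro i hi q hq
        obtain ⟨-, s', o', hs', ho', rfl, -, h4, h5⟩ := edge_out hN hs (by omega) hq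
        rw [edg_zero] at h5
        obtain ⟨rfl, h6⟩ := h5
        have : o' = 1 := by omega
        subst this
        refine ⟨1, by omega, rfl, ?_⟩
        have : i = 0 := by omega
        subst this
        simp
      · intro j hj p hp
        obtain ⟨l', s', o', h0, hs', ho', rfl, h4, h5⟩ := edge_in hN hs (by omega) hp
        have : l' = 0 := by omega
        subst this
        rw [edg_zero] at h5
        rw [val_zero, decide_eq_true_eq] at h4
        obtain ⟨rfl, -⟩ := h5
        exact ⟨0, by omega, by rw [h4]⟩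
    · have h := loc_of_match hME hM hcov (a := 1) (b := 2) (x := fun i => pst (m + n) 0 s i)
        (y := fun j => pst (m + n) 1 s j) (e := [(0, 0), (0, 1)]) (fun i j h _ => pst_lt h)
        (fun i j h _ => pst_lt h) hyV ?_ ?_
      · have h' : Loc [(0, 0), (0, 1)] 1 2 (gb [true]) (gb [L 1 s 0, L 1 s 1]) := h.congr (by
          intro i hi
          have : i = 0 := by omega
          subst this
          rw [← hL]
          exact hfirst s hs) (by
          intro j hj
          rw [← hL]
          rcases (by omega : j = 0 ∨ j = 1) with rfl | rfl <;> rfl)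
        exact ⟨start_any _ _ h', fun h => absurd h hsm⟩
      · intro i hi q hq
        obtain ⟨-, s', o', hs', ho', rfl, -, h4, h5⟩ := edge_out hN hs (by omega) hq
        rw [edg_zero] at h5
        obtain ⟨rfl, h6⟩ := h5
        have : i = 0 := by omega
        subst this
        refine ⟨o', by omega, rfl, ?_⟩
        rcases (by omega : o' = 0 ∨ o' = 1) with rfl | rfl <;> simp
      · intro j hj p hp
        obtain ⟨l', s', o', h0, hs', ho', rfl, h4, h5⟩ := edge_in hN hs (by omega) hp
        have : l' = 0 := by omega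
        subst this
        rw [edg_zero] at h5
        rw [val_zero, decide_eq_true_eq] at h4
        obtain ⟨rfl, -⟩ := h5
        exact ⟨0, by omega, by rw [h4]⟩
  -- copying
  have hcopy : ∀ τ < m * n, ∀ u < 3, ∀ s < m + n, s ≠ opA m n τ → s ≠ opA m n τ + 1 →
      L (3 * τ + 1 + u) s 0 = !L (3 * τ + 1 + u) s 1 →
      L (3 * τ + 1 + u + 1) s 0 = !L (3 * τ + 1 + u) s 1 ∧
      L (3 * τ + 1 + u + 1) s 1 = L (3 * τ + 1 + u) s 1 := by
    intro τ hτ u hu s hs hs1 hs2 hcell
    have hval : ∀ o, val m n (3 * τ + 1 + u) s o = decide (o < 2) := by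
      intro o
      rcases (by omega : u = 0 ∨ u = 1 ∨ u = 2) with rfl | rfl | rfl
      · exact val_can' m n τ s o
      · rw [val_mid hτ (Or.inl rfl), if_neg hs1, if_neg hs2]
      · rw [val_mid hτ (Or.inr rfl), if_neg hs1, if_neg hs2]
    have hval' : ∀ o, val m n (3 * τ + 1 + u + 1) s o = decide (o < 2) := by
      intro o
      rcases (by omega : u = 0 ∨ u = 1 ∨ u = 2) with rfl | rfl | rfl
      · rw [show 3 * τ + 1 + 0 + 1 = 3 * τ + 1 + 1 from rfl, val_mid hτ (Or.inl rfl), if_neg hs1,
          if_neg hs2]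
      · rw [show 3 * τ + 1 + 1 + 1 = 3 * τ + 1 + 2 from rfl, val_mid hτ (Or.inr rfl), if_neg hs1,
          if_neg hs2]
      · rw [show 3 * τ + 1 + 2 + 1 = 3 * (τ + 1) + 1 by ring]
        exact val_can' m n (τ + 1) s o
    have h := loc_of_match hME hM hcov (a := 2) (b := 2)
      (x := fun i => pst (m + n) (3 * τ + 1 + u) s i)
      (y := fun j => pst (m + n) (3 * τ + 1 + u + 1) s j) (e := [(0, 1), (1, 0)])
      (fun i j h _ => pst_lt h) (fun i j h _ => pst_lt h)
      (fun j hj => (mem_verts (by omega) hs (by omega)).2 (by rw [hval']; simpa using hj)) ?_ ?_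
    · refine copy_sound _ _ _ (h.congr ?_ ?_)
      · intro i hi
        rw [← hL]
        rcases (by omega : i = 0 ∨ i = 1) with rfl | rfl
        · exact hcell
        · rfl
      · intro j hj
        rw [← hL]
        rcases (by omega : j = 0 ∨ j = 1) with rfl | rfl <;> rfl
    · intro i hi q hq
      obtain ⟨-, s', o', hs', ho', rfl, -, h4, h5⟩ := edge_out hN hs (by omega) hq
      rw [edg_copy hτ hu pos neg hs1 hs2] at h5
      obtain ⟨rfl, h6⟩ := h5
      refine ⟨o', by omega, rfl, ?_⟩
      rcases h6 with ⟨rfl, rfl⟩ | ⟨rfl, rfl⟩ <;> simp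
    · intro j hj p hp
      obtain ⟨l', s', o', h0, hs', ho', rfl, h4, h5⟩ := edge_in hN hs (by omega) hp
      have : l' = 3 * τ + 1 + u := by omega
      subst this
      by_cases hg : s' = opA m n τ ∨ s' = opA m n τ + 1
      · exfalso
        rcases (by omega : u = 0 ∨ u = 1 ∨ u = 2) with rfl | rfl | rfl
        · rw [Nat.add_zero, edg_zeroPass hτ pos neg hg] at h5
          omega
        · rw [edg_onePass hτ pos neg hg] at h5
          omega
        · rw [edg_twoPass hτ pos neg hg] at h5
          omega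
      · rw [edg_copy hτ hu pos neg (by omega) (by omega)] at h5
        obtain ⟨rfl, h6⟩ := h5
        rw [hval, decide_eq_true_eq] at h4
        exact ⟨o', h4, rfl⟩
  -- the gadget
  have hgad : ∀ τ < m * n,
      L (3 * τ + 1) (opA m n τ) 0 = !L (3 * τ + 1) (opA m n τ) 1 →
      L (3 * τ + 1) (opA m n τ + 1) 0 = !L (3 * τ + 1) (opA m n τ + 1) 1 →
      L (3 * (τ + 1) + 1) (opA m n τ) 0 = !L (3 * (τ + 1) + 1) (opA m n τ) 1 ∧
      L (3 * (τ + 1) + 1) (opA m n τ + 1) 0 = !L (3 * (τ + 1) + 1) (opA m n τ + 1) 1 ∧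
      L (3 * (τ + 1) + 1) (opA m n τ) 1 = L (3 * τ + 1) (opA m n τ + 1) 1 ∧
      (L (3 * (τ + 1) + 1) (opA m n τ + 1) 1 = true → L (3 * τ + 1) (opA m n τ) 1 = true ∨
        (pos τ = true ∧ L (3 * τ + 1) (opA m n τ + 1) 1 = true) ∨
        (neg τ = true ∧ L (3 * τ + 1) (opA m n τ + 1) 1 = false)) := by
    intro τ hτ hc1 hc2
    have ha := opA_lt hτ
    obtain ⟨a, haa⟩ : ∃ a, a = opA m n τ := ⟨_, rfl⟩
    rw [← haa] at ha hc1 hc2 ⊢
    have eL : 3 * (τ + 1) + 1 = 3 * τ + 1 + 2 + 1 := by ring
    have vmid : ∀ u, u = 1 ∨ u = 2 → ∀ s o, val m n (3 * τ + 1 + u) s o =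
        if s = a then true else if s = a + 1 then false else decide (o < 2) := by
      intro u hu s o
      rw [val_mid hτ hu, haa]
    have h0 := loc_of_match hME hM hcov (a := 4) (b := 5) (x := pc (m + n) (3 * τ + 1) a)
      (y := fun j => pst (m + n) (3 * τ + 1 + 1) a j) (e := g0 (pos τ) (neg τ))
      pc_mono (fun i j h _ => pst_lt h)
      (fun j hj => (mem_verts (by omega) (by omega) (by omega)).2 (by
        rw [vmid 1 (Or.inl rfl), if_pos rfl])) ?_ ?_
    have h1 := loc_of_match hME hM hcov (a := 5) (b := 5)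
      (x := fun i => pst (m + n) (3 * τ + 1 + 1) a i)
      (y := fun j => pst (m + n) (3 * τ + 1 + 2) a j) (e := g1)
      (fun i j h _ => pst_lt h) (fun i j h _ => pst_lt h)
      (fun j hj => (mem_verts (by omega) (by omega) (by omega)).2 (by
        rw [vmid 2 (Or.inr rfl), if_pos rfl])) ?_ ?_
    have h2 := loc_of_match hME hM hcov (a := 5) (b := 4)
      (x := fun i => pst (m + n) (3 * τ + 1 + 2) a i) (y := pc (m + n) (3 * (τ + 1) + 1) a)
      (e := g2) (fun i j h _ => pst_lt h) pc_mono ?_ ?_ ?_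
    · have h0' : Loc (g0 (pos τ) (neg τ)) 4 5 (gb [!L (3 * τ + 1) a 1, L (3 * τ + 1) a 1,
          !L (3 * τ + 1) (a + 1) 1, L (3 * τ + 1) (a + 1) 1])
          (gb [L (3 * τ + 1 + 1) a 0, L (3 * τ + 1 + 1) a 1, L (3 * τ + 1 + 1) a 2,
            L (3 * τ + 1 + 1) a 3, L (3 * τ + 1 + 1) a 4]) := by
        refine h0.congr ?_ ?_
        · intro i hi
          unfold pc
          rcases (by omega : i = 0 ∨ i = 1 ∨ i = 2 ∨ i = 3) with rfl | rfl | rfl | rfl
          · rw [if_pos (by omega), ← hL]; exact hc1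
          · rw [if_pos (by omega), ← hL]; rfl
          · rw [if_neg (by omega), ← hL]; exact hc2
          · rw [if_neg (by omega), ← hL]; rfl
        · intro j hj
          rw [← hL]
          rcases lt_five_cases hj with rfl | rfl | rfl | rfl | rfl <;> rfl
      have h1' : Loc g1 5 5 (gb [L (3 * τ + 1 + 1) a 0, L (3 * τ + 1 + 1) a 1,
            L (3 * τ + 1 + 1) a 2, L (3 * τ + 1 + 1) a 3, L (3 * τ + 1 + 1) a 4])
          (gb [L (3 * τ + 1 + 2) a 0, L (3 * τ + 1 + 2) a 1, L (3 * τ + 1 + 2) a 2,
            L (3 * τ + 1 + 2) a 3, L (3 * τ + 1 + 2) a 4]) := by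
        refine h1.congr ?_ ?_
        · intro j hj
          rw [← hL]
          rcases lt_five_cases hj with rfl | rfl | rfl | rfl | rfl <;> rfl
        · intro j hj
          rw [← hL]
          rcases lt_five_cases hj with rfl | rfl | rfl | rfl | rfl <;> rfl
      have h2' : Loc g2 5 4 (gb [L (3 * τ + 1 + 2) a 0, L (3 * τ + 1 + 2) a 1,
            L (3 * τ + 1 + 2) a 2, L (3 * τ + 1 + 2) a 3, L (3 * τ + 1 + 2) a 4])
          (gb [L (3 * (τ + 1) + 1) a 0, L (3 * (τ + 1) + 1) a 1, L (3 * (τ + 1) + 1) (a + 1) 0,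
            L (3 * (τ + 1) + 1) (a + 1) 1]) := by
        refine h2.congr ?_ ?_
        · intro j hj
          rw [← hL]
          rcases lt_five_cases hj with rfl | rfl | rfl | rfl | rfl <;> rfl
        · intro i hi
          unfold pc
          rcases (by omega : i = 0 ∨ i = 1 ∨ i = 2 ∨ i = 3) with rfl | rfl | rfl | rfl
          · rw [if_pos (by omega), ← hL]; rfl
          · rw [if_pos (by omega), ← hL]; rfl
          · rw [if_neg (by omega), ← hL]; rfl
          · rw [if_neg (by omega), ← hL]; rfl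
      have hfin := gadget_sound _ _ _ _ _ _ _ _ _ _ _ _ _ _ _ _ _ _ h0' h1' h2'
      refine ⟨?_, hfin.2.2.1, hfin.2.1, hfin.2.2.2⟩
      rw [hfin.1, hfin.2.1]
    · intro j hj
      unfold pc
      split_ifs with h5
      · exact (mem_verts (by omega) (by omega) (by omega)).2 (by rw [val_can']; simpa using h5)
      · exact (mem_verts (by omega) (by omega) (by omega)).2 (by
          rw [val_can']; simpa using by omega)
    · intro i hi q hq
      obtain ⟨-, s', o', hs', ho', rfl, -, h4, h5⟩ := edge_out hN (by omega) (by omega) hq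
      rw [edg_twoPass hτ pos neg (Or.inl haa), ← haa] at h5
      rw [← eL, val_can', decide_eq_true_eq] at h4
      refine ⟨idx a s' o', ?_, ?_, h5.2⟩
      · rcases h5.1 with h6 | h6
        · rw [idx, if_pos h6]; omega
        · rw [idx, if_neg (by omega)]; omega
      · rcases h5.1 with rfl | rfl
        · rw [idx, if_pos rfl, pc, if_pos h4, eL]
        · have e6 : idx a (a + 1) o' = o' + 2 := by rw [idx, if_neg (by omega)]
          rw [e6, pc, if_neg (by omega), Nat.add_sub_cancel, eL]
    · intro j hj p hp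
      have key : ∀ s o, s < m + n → o < 2 → (s = a ∨ s = a + 1) →
          (p, pst (m + n) (3 * (τ + 1) + 1) s o) ∈ edges m n pos neg →
          ∃ i < 5, p = pst (m + n) (3 * τ + 1 + 2) a i := by
        intro s o hs ho hsa hp
        obtain ⟨l', s', o', h0, hs', ho', rfl, h4, h5⟩ := edge_in hN hs (by omega) hp
        have : l' = 3 * τ + 1 + 2 := by omega
        subst this
        by_cases hg : s' = opA m n τ ∨ s' = opA m n τ + 1
        · rw [vmid 2 (Or.inr rfl), ← haa] at *
          rcases hg with rfl | rfl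
          · exact ⟨o', ho', rfl⟩
          · rw [if_neg (by omega), if_pos rfl] at h4
            exact absurd h4 (by simp)
        · rw [edg_copy hτ (by omega) pos neg (by omega) (by omega)] at h5
          omega
      unfold pc at hp
      split_ifs at hp with h5
      · exact key _ _ (by omega) h5 (Or.inl rfl) hp
      · exact key _ _ (by omega) (by omega) (Or.inr rfl) hp
    · intro i hi q hq
      obtain ⟨-, s', o', hs', ho', rfl, -, h4, h5⟩ := edge_out hN (by omega) (by omega) hq
      rw [edg_onePass hτ pos neg (Or.inl haa), ← haa] at h5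
      have h4' : val m n (3 * τ + 1 + 2) s' o' = true := h4
      rw [vmid 2 (Or.inr rfl)] at h4'
      rcases h5.1 with rfl | rfl
      · exact ⟨o', ho', rfl, h5.2⟩
      · rw [if_neg (by omega), if_pos rfl] at h4'
        exact absurd h4' (by simp)
    · intro j hj p hp
      obtain ⟨l', s', o', h0, hs', ho', rfl, h4, h5⟩ := edge_in hN (by omega) (by omega) hp
      have : l' = 3 * τ + 1 + 1 := by omega
      subst this
      by_cases hg : s' = opA m n τ ∨ s' = opA m n τ + 1
      · rw [vmid 1 (Or.inl rfl)] at h4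
        rw [← haa] at hg
        rcases hg with rfl | rfl
        · exact ⟨o', ho', rfl⟩
        · rw [if_neg (by omega), if_pos rfl] at h4
          exact absurd h4 (by simp)
      · rw [edg_copy hτ (by omega) pos neg (by omega) (by omega)] at h5
        omega
    · intro i hi q hq
      have key : ∀ s o, s < m + n → o < 2 → (s = a ∨ s = a + 1) →
          (pst (m + n) (3 * τ + 1) s o, q) ∈ edges m n pos neg →
          ∃ j < 5, q = pst (m + n) (3 * τ + 1 + 1) a j ∧ (idx a s o, j) ∈ g0 (pos τ) (neg τ) := by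
        intro s o hs ho hsa hq
        obtain ⟨-, s', o', hs', ho', rfl, -, h4, h5⟩ := edge_out hN hs (by omega) hq
        rw [edg_zeroPass hτ pos neg (by rw [← haa]; exact hsa), ← haa] at h5
        have h4' : val m n (3 * τ + 1 + 1) s' o' = true := h4
        rw [vmid 1 (Or.inl rfl)] at h4'
        rcases h5.1 with rfl | rfl
        · exact ⟨o', ho', rfl, h5.2⟩
        · rw [if_neg (by omega), if_pos rfl] at h4'
          exact absurd h4' (by simp)
      unfold pc at hq
      split_ifs at hq with h5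
      · obtain ⟨j, hj, h6, h7⟩ := key _ _ (by omega) h5 (Or.inl rfl) hq
        rw [idx, if_pos rfl] at h7
        exact ⟨j, hj, h6, h7⟩
      · obtain ⟨j, hj, h6, h7⟩ := key _ _ (by omega) (by omega) (Or.inr rfl) hq
        rw [idx, if_neg (by omega), Nat.sub_add_cancel (by omega)] at h7
        exact ⟨j, hj, h6, h7⟩
    · intro j hj p hp
      obtain ⟨l', s', o', h0, hs', ho', rfl, h4, h5⟩ := edge_in hN (by omega) (by omega) hp
      have : l' = 3 * τ + 1 := by omega
      subst this
      rw [val_can', decide_eq_true_eq] at h4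
      by_cases hg : s' = opA m n τ ∨ s' = opA m n τ + 1
      · rw [← haa] at hg
        rcases hg with rfl | rfl
        · exact ⟨o', by omega, by unfold pc; rw [if_pos h4]⟩
        · exact ⟨o' + 2, by omega, by unfold pc; rw [if_neg (by omega), Nat.add_sub_cancel]⟩
      · rw [show 3 * τ + 1 = 3 * τ + 1 + 0 from rfl,
          edg_copy hτ (by omega) pos neg (by omega) (by omega)] at h5
        omega
  -- all cells
  have hcells : ∀ τ ≤ m * n, ∀ s < m + n, L (3 * τ + 1) s 0 = !L (3 * τ + 1) s 1 := by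
    intro τ
    induction τ with
    | zero => intro _ s hs; exact (hstart s hs).1
    | succ τ ih =>
      intro hτ s hs
      have hτ' : τ < m * n := hτ
      have ha := opA_lt hτ'
      have h1 := hgad τ hτ' (ih (by omega) _ (by omega)) (ih (by omega) _ (by omega))
      by_cases hs1 : s = opA m n τ
      · rw [hs1]; exact h1.1
      · by_cases hs2 : s = opA m n τ + 1
        · rw [hs2]; exact h1.2.1
        · have c0 := hcopy τ hτ' 0 (by omega) s hs hs1 hs2 (ih (by omega) s hs)
          have c1 := hcopy τ hτ' 1 (by omega) s hs hs1 hs2 (by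
            rw [show 3 * τ + 1 + 1 = 3 * τ + 1 + 0 + 1 from rfl, c0.1, c0.2])
          have c2 := hcopy τ hτ' 2 (by omega) s hs hs1 hs2 (by
            rw [show 3 * τ + 1 + 2 = 3 * τ + 1 + 1 + 1 from rfl, c1.1, c1.2])
          rw [show 3 * (τ + 1) + 1 = 3 * τ + 1 + 2 + 1 by ring, c2.1, c2.2]
  refine ⟨fun τ s => L (3 * τ + 1) s 1, ?_, ?_, ?_⟩
  · intro s hs
    exact (hstart s (by omega)).2 hs
  · intro τ hτ
    have ha := opA_lt hτ
    have h1 := hgad τ hτ (hcells τ hτ.le _ (by omega)) (hcells τ hτ.le _ (by omega))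
    refine ⟨?_, h1.2.2.1, h1.2.2.2⟩
    intro s hs hs1 hs2
    have c0 := hcopy τ hτ 0 (by omega) s hs hs1 hs2 (hcells τ hτ.le s hs)
    have c1 := hcopy τ hτ 1 (by omega) s hs hs1 hs2 (by
      rw [show 3 * τ + 1 + 1 = 3 * τ + 1 + 0 + 1 from rfl, c0.1, c0.2])
    have c2 := hcopy τ hτ 2 (by omega) s hs hs1 hs2 (by
      rw [show 3 * τ + 1 + 2 = 3 * τ + 1 + 1 + 1 from rfl, c1.1, c1.2])
    simp only
    rw [show 3 * (τ + 1) + 1 = 3 * τ + 1 + 2 + 1 by ring, c2.2,
      show 3 * τ + 1 + 2 = 3 * τ + 1 + 1 + 1 from rfl, c1.2,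
      show 3 * τ + 1 + 1 = 3 * τ + 1 + 0 + 1 from rfl, c0.2, Nat.add_zero]
  · intro s hs1 hs2
    have h := loc_of_match hME hM hcov (a := 2) (b := 1)
      (x := fun i => pst (m + n) (3 * (m * n) + 1) s i)
      (y := fun j => pst (m + n) (3 * (m * n) + 2) s j) (e := [(1, 0)])
      (fun i j h _ => pst_lt h) (fun i j h _ => pst_lt h)
      (fun j hj => (mem_verts (by omega) hs2 (by omega)).2 (by
        rw [val_last]; simpa using by omega)) ?_ ?_
    · refine end_sound _ (h.congr ?_ ?_)
      · intro i hi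
        rw [← hL]
        rcases (by omega : i = 0 ∨ i = 1) with rfl | rfl
        · exact hcells (m * n) le_rfl s hs2
        · rfl
      · intro j hj
        have : j = 0 := by omega
        subst this
        rw [← hL]
        exact hlast s hs2
    · intro i hi q hq
      obtain ⟨-, s', o', hs', ho', rfl, h3, h4, h5⟩ := edge_out hN hs2 (by omega) hq
      rw [edg_last] at h5
      obtain ⟨rfl, h6⟩ := h5
      rw [show 3 * (m * n) + 1 + 1 = 3 * (m * n) + 2 from rfl, val_last, decide_eq_true_eq] at h4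
      subst h4
      refine ⟨0, by omega, rfl, ?_⟩
      rcases h6 with rfl | ⟨-, h7⟩
      · simp
      · omega
    · intro j hj p hp
      obtain ⟨l', s', o', h0, hs', ho', rfl, h4, h5⟩ := edge_in hN hs2 (by omega) hp
      have : l' = 3 * (m * n) + 1 := by omega
      subst this
      rw [edg_last] at h5
      obtain ⟨rfl, -⟩ := h5
      rw [val_can', decide_eq_true_eq] at h4
      exact ⟨o', h4, rfl⟩

end Pool.Agent.X249.NF
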